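import Mathlib

/-!
# Project MT, block ALG, A1 (Lemma 1.1 of multi_proof.md): uniform Frobenius

If a bounded integer valued function `c` on an abelian group satisfies
`∑ i, a i * c (x - w i) = 0` for all `x` then also `∑ i, a i * c (x - n • w i) = 0` for every
integer `n` coprime to `k!`, `k` the number of terms.
-/

set_option autoImplicit false

namespace Pool.Agent.MT

open Finset Polynomial Nat

section A1

variable {G I : Type*} [AddCommGroup G] [Fintype I]

/-- The operator of translation on functions. -/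
def A1T (k : Type*) [CommRing k] (g : G) : Module.End k (G → k) where
  toFun f := fun x => f (x - g)
  map_add' _ _ := rfl
  map_smul' _ _ := rfl

/-- The translations as a monoid homomorphism. -/
def A1Th (k : Type*) [CommRing k] : Multiplicative G →* Module.End k (G → k) where
  toFun g := A1T k g.toAdd
  map_one' := by
    ext f x
    simp [A1T]
  map_mul' g h := by
    apply LinearMap.ext
    intro f
    funext x
    change f (x - (g.toAdd + h.toAdd)) = f ((x - g.toAdd) - h.toAdd)
    rw [sub_sub]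

/-- The action of the group algebra on functions. -/
noncomputable def A1act (k : Type*) [CommRing k] : AddMonoidAlgebra k G →ₐ[k] Module.End k (G → k) :=
  AddMonoidAlgebra.lift k (Module.End k (G → k)) G (A1Th k)

theorem A1act_single (k : Type*) [CommRing k] (g : G) (r : k) (f : G → k) (x : G) :
    A1act k (AddMonoidAlgebra.single g r) f x = r * f (x - g) := by
  unfold A1act
  rw [AddMonoidAlgebra.lift_single]
  rfl

theorem A1act_sum (k : Type*) [CommRing k] (w : I → G) (a : I → k) (f : G → k) (x : G) :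
    A1act k (∑ i, AddMonoidAlgebra.single (w i) (a i)) f x = ∑ i, a i * f (x - w i) := by
  rw [map_sum, LinearMap.sum_apply, Finset.sum_apply]
  exact sum_congr rfl fun i _ => A1act_single k (w i) (a i) f x

theorem A1_zero_of_dvd {y M : ℤ} {p : ℕ} (h : (p : ℤ) ∣ y) (hy : |y| ≤ M) (hM : M < p) : y = 0 :=
  Int.eq_zero_of_abs_lt_dvd h (lt_of_le_of_lt hy hM)

/-- The Frobenius step for one large prime. -/
theorem A1_prime (p : ℕ) [hp : Fact p.Prime] (w : I → G) (a : I → ℤ) (c : G → ℤ) (B : ℤ)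
    (hB : ∀ x, |c x| ≤ B) (h : ∀ x, ∑ i, a i * c (x - w i) = 0)
    (hM : (∑ i, |a i|) * B < p) : ∀ x, ∑ i, a i * c (x - (p : ℤ) • w i) = 0 := by
  intro x
  have hB0 : 0 ≤ B := (abs_nonneg _).trans (hB 0)
  -- the size
  have hsize : |∑ i, a i * c (x - (p : ℤ) • w i)| ≤ (∑ i, |a i|) * B := by
    refine (abs_sum_le_sum_abs _ _).trans ?_
    rw [sum_mul]
    refine sum_le_sum fun i _ => ?_
    rw [abs_mul]
    exact mul_le_mul_of_nonneg_left (hB _) (abs_nonneg _)
  refine A1_zero_of_dvd (p := p) ?_ hsize hM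
  -- divisibility
  have : CharP (AddMonoidAlgebra (ZMod p) G) p :=
    charP_of_injective_algebraMap (FaithfulSMul.algebraMap_injective (ZMod p) _) p
  set A : AddMonoidAlgebra (ZMod p) G := ∑ i, AddMonoidAlgebra.single (w i) ((a i : ℤ) : ZMod p)
    with hA
  set cb : G → ZMod p := fun x => ((c x : ℤ) : ZMod p) with hcb
  have h1 : A1act (ZMod p) A cb = 0 := by
    funext y
    rw [hA, A1act_sum]
    have := congrArg (fun z : ℤ => (z : ZMod p)) (h y)
    simpa [hcb] using this
  have h2 : A1act (ZMod p) (A ^ p) cb = 0 := by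
    have h20 : ∀ m : ℕ, A1act (ZMod p) (A ^ (m + 1)) cb = 0 := fun m => by
      rw [map_pow, pow_succ, Module.End.mul_apply, h1, map_zero]
    have h21 := h20 (p - 1)
    rwa [Nat.sub_add_cancel hp.out.pos] at h21
  have h3 : A ^ p = ∑ i, AddMonoidAlgebra.single ((p : ℤ) • w i) ((a i : ℤ) : ZMod p) := by
    rw [hA, sum_pow_char p]
    refine sum_congr rfl fun i _ => ?_
    rw [AddMonoidAlgebra.single_pow, ZMod.pow_card, natCast_zsmul]
  rw [h3] at h2
  have h4 := congrFun h2 x
  rw [A1act_sum] at h4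
  rw [← ZMod.intCast_zmod_eq_zero_iff_dvd]
  have h5 : ((∑ i, a i * c (x - (p : ℤ) • w i) : ℤ) : ZMod p)
      = ∑ i, ((a i : ℤ) : ZMod p) * cb (x - (p : ℤ) • w i) := by
    push_cast
    rfl
  rw [h5, h4]
  rfl

/-- All `n ≥ 1` all whose prime factors are large. -/
theorem A1_large (w : I → G) (a : I → ℤ) (c : G → ℤ) (B : ℤ)
    (hB : ∀ x, |c x| ≤ B) (h : ∀ x, ∑ i, a i * c (x - w i) = 0) (M : ℕ)
    (hM : (∑ i, |a i|) * B ≤ M) (n : ℕ) (hn : 1 ≤ n) (hc : n.Coprime M !) :
    ∀ x, ∑ i, a i * c (x - (n : ℤ) • w i) = 0 := by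
  induction n using Nat.strong_induction_on with
  | _ n ih =>
    rcases Nat.eq_or_lt_of_le hn with h1 | h1
    · intro x
      have := h x
      rw [← h1]
      simpa using this
    · have hne : n ≠ 1 := by omega
      have hp : n.minFac.Prime := Nat.minFac_prime hne
      obtain ⟨m, hm⟩ := Nat.minFac_dvd n
      have hm1 : 1 ≤ m := by
        rcases Nat.eq_zero_or_pos m with h0 | h0
        · rw [h0, mul_zero] at hm; omega
        · exact h0
      have hmn : m < n := by
        calc m = 1 * m := (one_mul m).symm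
          _ < n.minFac * m := Nat.mul_lt_mul_of_pos_right hp.one_lt hm1
          _ = n := hm.symm
      have hmc : m.Coprime M ! := Nat.Coprime.coprime_dvd_left ⟨n.minFac, by rw [mul_comm]; exact hm⟩ hc
      have hpM : M < n.minFac := by
        by_contra hcon
        push Not at hcon
        have h2 : n.minFac ∣ M ! := (Nat.Prime.dvd_factorial hp).mpr hcon
        have h3 := Nat.dvd_gcd (Nat.minFac_dvd n) h2
        rw [hc] at h3
        exact hp.one_lt.ne' (Nat.dvd_one.mp h3)
      have h4 := ih m hmn hm1 hmc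
      have : Fact n.minFac.Prime := ⟨hp⟩
      have h5 := A1_prime n.minFac (fun i => (m : ℤ) • w i) a c B hB h4
        (lt_of_le_of_lt hM (by exact_mod_cast hpM))
      intro x
      have h6 := h5 x
      have h7 : ∀ i, (n.minFac : ℤ) • (m : ℤ) • w i = (n : ℤ) • w i := by
        intro i
        rw [smul_smul]
        congr 1
        exact_mod_cast hm.symm
      refine (sum_congr rfl fun i _ => ?_).trans h6
      rw [h7 i]

/-! ### The recurrence -/

/-- The element `∑ i, a i * T^(u i + t z i)`. -/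
noncomputable def A1Y (u z : I → G) (a : I → ℤ) (t : ℤ) : AddMonoidAlgebra ℤ G :=
  ∑ i, AddMonoidAlgebra.single (u i + t • z i) (a i)

/-- The characteristic polynomial of the recurrence. -/
noncomputable def A1e (z : I → G) : (AddMonoidAlgebra ℤ G)[X] :=
  ∏ i, (X - C (AddMonoidAlgebra.single (z i) (1 : ℤ)))

theorem A1e_monic (z : I → G) : (A1e z).Monic :=
  monic_prod_of_monic _ _ fun _ _ => monic_X_sub_C _

theorem A1e_natDegree (z : I → G) : (A1e z).natDegree = Fintype.card I := by
  unfold A1e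
  rw [natDegree_prod_of_monic _ _ fun i _ => monic_X_sub_C _]
  simp [Finset.card_univ]

theorem A1e_coeff_card (z : I → G) : (A1e z).coeff (Fintype.card I) = 1 := by
  rw [← A1e_natDegree z]
  exact A1e_monic z

theorem A1e_eval (z : I → G) (i : I) :
    (A1e z).eval (AddMonoidAlgebra.single (z i) (1 : ℤ)) = 0 := by
  unfold A1e
  rw [eval_prod]
  refine prod_eq_zero (mem_univ i) ?_
  simp

theorem A1e_coeff_zero_unit (z : I → G) :
    ∃ v : AddMonoidAlgebra ℤ G, v * (A1e z).coeff 0 = 1 := by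
  refine ⟨∏ i, (- AddMonoidAlgebra.single (- z i) (1 : ℤ)), ?_⟩
  rw [coeff_zero_eq_eval_zero]
  unfold A1e
  rw [eval_prod, ← prod_mul_distrib]
  refine prod_eq_one fun i _ => ?_
  simp [AddMonoidAlgebra.single_mul_single, AddMonoidAlgebra.one_def]

theorem A1_rec (u z : I → G) (a : I → ℤ) (t : ℤ) :
    ∑ j ∈ range (Fintype.card I + 1), (A1e z).coeff j * A1Y u z a (t + j) = 0 := by
  have h1 : ∀ j : ℕ, (A1e z).coeff j * A1Y u z a (t + j)
      = ∑ i, AddMonoidAlgebra.single (u i + t • z i) (a i) *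
        ((A1e z).coeff j * (AddMonoidAlgebra.single (z i) (1 : ℤ)) ^ j) := by
    intro j
    unfold A1Y
    rw [mul_sum]
    refine sum_congr rfl fun i _ => ?_
    rw [AddMonoidAlgebra.single_pow, one_pow, mul_left_comm,
      AddMonoidAlgebra.single_mul_single, mul_one]
    congr 2
    rw [add_smul, natCast_zsmul, add_assoc]
  simp only [h1]
  rw [sum_comm]
  refine sum_eq_zero fun i _ => ?_
  rw [← mul_sum, ← eval_eq_sum_range' (by rw [A1e_natDegree]; omega), A1e_eval, mul_zero]

/-- `k` consecutive zeros propagate. -/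
theorem A1_consecutive (u z : I → G) (a : I → ℤ) (c : G → ℤ) (t0 : ℤ)
    (h : ∀ j : ℕ, j < Fintype.card I → A1act ℤ (A1Y u z a (t0 + j)) c = 0) (t : ℤ) :
    A1act ℤ (A1Y u z a t) c = 0 := by
  rcases Nat.eq_zero_or_pos (Fintype.card I) with hk | hk
  · have : IsEmpty I := Fintype.card_eq_zero_iff.mp hk
    unfold A1Y
    simp
  -- one step in both directions
  have hrec : ∀ t : ℤ, ∑ j ∈ range (Fintype.card I + 1),
      A1act ℤ ((A1e z).coeff j) (A1act ℤ (A1Y u z a (t + j)) c) = 0 := by
    intro t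
    have h1 := congrArg (fun r => A1act ℤ r c) (A1_rec u z a t)
    simpa [map_sum, map_mul, LinearMap.sum_apply] using h1
  have hup : ∀ t : ℤ, (∀ j : ℕ, j < Fintype.card I → A1act ℤ (A1Y u z a (t + j)) c = 0) →
      A1act ℤ (A1Y u z a (t + Fintype.card I)) c = 0 := by
    intro t ht
    have h1 := hrec t
    rw [sum_range_succ, sum_eq_zero (fun j hj => by
      rw [ht j (mem_range.mp hj), map_zero]), zero_add, A1e_coeff_card, map_one] at h1
    exact h1
  have hdown : ∀ t : ℤ, (∀ j : ℕ, j < Fintype.card I → A1act ℤ (A1Y u z a (t + 1 + j)) c = 0) →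
      A1act ℤ (A1Y u z a t) c = 0 := by
    intro t ht
    have h1 := hrec t
    rw [sum_range_succ', sum_eq_zero (fun j hj => by
      have := ht j (mem_range.mp hj)
      rw [show t + ((j + 1 : ℕ) : ℤ) = t + 1 + j by push_cast; ring, this, map_zero]),
      zero_add] at h1
    obtain ⟨v, hv⟩ := A1e_coeff_zero_unit z
    have h2 := congrArg (A1act ℤ v) h1
    rw [map_zero, ← Module.End.mul_apply, ← map_mul, hv, map_one] at h2
    simpa using h2
  have hall : ∀ t : ℤ, ∀ j : ℕ, j < Fintype.card I → A1act ℤ (A1Y u z a (t + j)) c = 0 := by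
    intro t
    induction t using Int.inductionOn' (b := t0) with
    | zero => exact h
    | succ k hk1 ih =>
      intro j hj
      rcases Nat.lt_or_ge (j + 1) (Fintype.card I) with h2 | h2
      · have := ih (j + 1) h2
        rwa [show k + ((j + 1 : ℕ) : ℤ) = k + 1 + j by push_cast; ring] at this
      · have h3 : j + 1 = Fintype.card I := by omega
        have := hup k ih
        rwa [← h3, show k + ((j + 1 : ℕ) : ℤ) = k + 1 + j by push_cast; ring] at this
    | pred k hk1 ih =>
      intro j hj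
      rcases Nat.eq_zero_or_pos j with h2 | h2
      · subst h2
        have := hdown (k - 1) (fun j hj => by
          have := ih j hj
          rwa [show k - 1 + 1 + (j : ℤ) = k + j by ring])
        simpa using this
      · have := ih (j - 1) (by omega)
        rwa [show k + ((j - 1 : ℕ) : ℤ) = k - 1 + j by
          rw [Nat.cast_sub h2]; push_cast; ring] at this
  have := hall t 0 hk
  simpa using this

/-- The progression form of `A1_consecutive`. -/
theorem A1_prog (w : I → G) (a : I → ℤ) (c : G → ℤ) (n0 m t0 : ℤ)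
    (h : ∀ j : ℕ, j < Fintype.card I →
      ∀ x, ∑ i, a i * c (x - (n0 + (t0 + j) * m) • w i) = 0) (t : ℤ) :
    ∀ x, ∑ i, a i * c (x - (n0 + t * m) • w i) = 0 := by
  have key : ∀ (t : ℤ) (x : G), A1act ℤ (A1Y (fun i => n0 • w i) (fun i => m • w i) a t) c x
      = ∑ i, a i * c (x - (n0 + t * m) • w i) := by
    intro t x
    unfold A1Y
    rw [A1act_sum]
    refine sum_congr rfl fun i _ => ?_
    rw [add_smul, smul_smul]
  intro x
  rw [← key, A1_consecutive _ _ a c t0 (fun j hj => funext fun x => by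
    rw [key]; exact h j hj x) t]
  rfl

theorem A1_coprime_succ {m : ℕ} (hm : ¬ (m + 1).Prime) {n : ℤ} (h : IsCoprime n (m ! : ℤ)) :
    IsCoprime n ((m + 1)! : ℤ) := by
  rw [Nat.factorial_succ, Nat.cast_mul]
  refine IsCoprime.mul_right ?_ h
  rw [Int.isCoprime_iff_gcd_eq_one]
  by_contra hcon
  obtain ⟨p, hp, hpd⟩ := Nat.exists_prime_and_dvd hcon
  have h1 : (p : ℤ) ∣ n := (Int.natCast_dvd_natCast.mpr hpd).trans (Int.gcd_dvd_left _ _)
  have h2 : (p : ℤ) ∣ ((m + 1 : ℕ) : ℤ) :=
    (Int.natCast_dvd_natCast.mpr hpd).trans (Int.gcd_dvd_right _ _)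
  have h3 : p ∣ m + 1 := Int.natCast_dvd_natCast.mp h2
  have h4 : p ≤ m + 1 := Nat.le_of_dvd (by omega) h3
  have h5 : p ≠ m + 1 := fun h => hm (h ▸ hp)
  have h6 : p ∣ m ! := (Nat.Prime.dvd_factorial hp).mpr (by omega)
  have h7 : IsUnit (p : ℤ) := h.isUnit_of_dvd' h1 (Int.natCast_dvd_natCast.mpr h6)
  rw [Int.isUnit_iff_natAbs_eq, Int.natAbs_natCast] at h7
  exact hp.one_lt.ne' h7

theorem A1_descend (w : I → G) (a : I → ℤ) (c : G → ℤ) (m : ℕ) (hm : Fintype.card I ≤ m)
    (h : ∀ n : ℤ, IsCoprime n ((m + 1)! : ℤ) → ∀ x, ∑ i, a i * c (x - n • w i) = 0) :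
    ∀ n : ℤ, IsCoprime n (m ! : ℤ) → ∀ x, ∑ i, a i * c (x - n • w i) = 0 := by
  intro n hn
  by_cases hl : (m + 1).Prime
  · -- the good progression
    have hcop : IsCoprime ((m ! : ℕ) : ℤ) ((m + 1 : ℕ) : ℤ) := by
      rw [Nat.isCoprime_iff_coprime, Nat.coprime_comm]
      exact (Nat.Prime.coprime_iff_not_dvd hl).mpr fun hd => by
        have := (Nat.Prime.dvd_factorial hl).mp hd
        omega
    obtain ⟨u, v, huv⟩ := hcop
    -- `t1` with `m + 1 ∣ n + t1 * m!`
    have ht1 : ((m + 1 : ℕ) : ℤ) ∣ n + (- n * u) * (m ! : ℤ) := by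
      refine ⟨n * v, ?_⟩
      have : n = n * (u * (m ! : ℤ) + v * ((m + 1 : ℕ) : ℤ)) := by rw [huv, mul_one]
      linear_combination this
    have hmain := A1_prog w a c n (m ! : ℤ) (- n * u + 1) (fun j hj => by
      refine h _ ?_
      rw [Nat.factorial_succ, Nat.cast_mul]
      refine IsCoprime.mul_right ?_ ?_
      · rw [isCoprime_comm]
        refine (Prime.coprime_iff_not_dvd (Nat.prime_iff_prime_int.mp hl)).mpr fun hd => ?_
        have h2 : ((m + 1 : ℕ) : ℤ) ∣ ((j : ℤ) + 1) * (m ! : ℤ) := by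
          have h3 := dvd_sub hd ht1
          have h4 : n + (- n * u + 1 + j) * (m ! : ℤ) - (n + (- n * u) * (m ! : ℤ))
              = ((j : ℤ) + 1) * (m ! : ℤ) := by ring
          rwa [h4] at h3
        have h5 : (m + 1) ∣ (j + 1) * m ! := by
          have : ((m + 1 : ℕ) : ℤ) ∣ (((j + 1) * m ! : ℕ) : ℤ) := by push_cast; exact_mod_cast h2
          exact Int.natCast_dvd_natCast.mp this
        rcases (Nat.Prime.dvd_mul hl).mp h5 with h6 | h6
        · have := Nat.le_of_dvd (by omega) h6
          omega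
        · have := (Nat.Prime.dvd_factorial hl).mp h6
          omega
      · have h7 := hn.add_mul_left_left (- n * u + 1 + j)
        simpa [mul_comm] using h7) 0
    simpa using hmain
  · exact h n (A1_coprime_succ hl hn)

/-- Lemma 1.1: uniform Frobenius. -/
theorem frobenius (w : I → G) (a : I → ℤ) (c : G → ℤ) (B : ℤ)
    (hB : ∀ x, |c x| ≤ B) (h : ∀ x, ∑ i, a i * c (x - w i) = 0) (n : ℤ)
    (hn : IsCoprime n ((Fintype.card I)! : ℤ)) : ∀ x, ∑ i, a i * c (x - n • w i) = 0 := by
  set k := Fintype.card I with hk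
  -- a large bound
  obtain ⟨M, hM⟩ : ∃ M : ℕ, (∑ i, |a i|) * B ≤ M := ⟨((∑ i, |a i|) * B).toNat, Int.self_le_toNat _⟩
  have hclaim : ∀ n : ℤ, IsCoprime n (((k + M)! : ℕ) : ℤ) →
      ∀ x, ∑ i, a i * c (x - n • w i) = 0 := by
    have hM' : (∑ i, |a i|) * B ≤ ((k + M : ℕ) : ℤ) := by push_cast; omega
    have hpos : ∀ n : ℤ, 1 ≤ n → IsCoprime n (((k + M)! : ℕ) : ℤ) →
        ∀ x, ∑ i, a i * c (x - n • w i) = 0 := by
      intro n hn1 hnc
      obtain ⟨n', rfl⟩ := Int.eq_ofNat_of_zero_le (by omega : 0 ≤ n)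
      exact A1_large w a c B hB h (k + M) hM' n' (by omega) (Nat.isCoprime_iff_coprime.mp hnc)
    intro n hnc
    have hfac : (1 : ℤ) ≤ (((k + M)! : ℕ) : ℤ) := by
      exact_mod_cast Nat.factorial_pos _
    have hmain := A1_prog w a c n (((k + M)! : ℕ) : ℤ) (|n| + 1) (fun j _ => by
      refine hpos _ ?_ ?_
      · have h1 : -|n| ≤ n := neg_abs_le n
        nlinarith [mul_le_mul_of_nonneg_left hfac (by positivity : 0 ≤ |n| + 1 + (j : ℤ))]
      · have := hnc.add_mul_left_left (|n| + 1 + j)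
        simpa [mul_comm] using this) 0
    simpa using hmain
  -- descend
  have hdesc : ∀ e : ℕ, (∀ n : ℤ, IsCoprime n (((k + e)! : ℕ) : ℤ) →
      ∀ x, ∑ i, a i * c (x - n • w i) = 0) →
      ∀ n : ℤ, IsCoprime n ((k ! : ℕ) : ℤ) → ∀ x, ∑ i, a i * c (x - n • w i) = 0 := by
    intro e
    induction e with
    | zero => intro h; simpa using h
    | succ e ih =>
      intro h
      refine ih (A1_descend w a c (k + e) (by omega) ?_)
      exact h
  exact hdesc M hclaim n hn

end A1

end Pool.Agent.MT
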