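import Pool.Agent.H39.MT.AlgA1

/-!
# Project MT, block ALG, A2 (Lemma 1.2 of multi_proof.md): the dilation lemma
-/

set_option autoImplicit false

namespace Pool.Agent.MT

open Finset Filter Topology

section A2

set_option linter.unusedSectionVars false

variable {G I : Type*} [AddCommGroup G]

/-- Bounded functions. -/
def A2Bd (φ : G → ℝ) : Prop := ∃ B, ∀ x, |φ x| ≤ B

/-- A nonprincipal ultrafilter. -/
noncomputable def A2U : Ultrafilter ℕ := Filter.hyperfilter ℕ

theorem A2U_le : (A2U : Filter ℕ) ≤ atTop := Nat.hyperfilter_le_atTop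

/-- Averages along `v`. -/
noncomputable def A2avg (v : G) (φ : G → ℝ) (x : G) (T : ℕ) : ℝ :=
  (∑ t ∈ range T, φ (x + t • v)) / T

/-- The averaging operator along `v`. -/
noncomputable def A2E (v : G) (φ : G → ℝ) (x : G) : ℝ :=
  limUnder (A2U : Filter ℕ) (A2avg v φ x)

theorem A2avg_abs_le {v : G} {φ : G → ℝ} {B : ℝ} (hB : ∀ x, |φ x| ≤ B) (x : G) (T : ℕ) :
    |A2avg v φ x T| ≤ B := by
  have hB0 : 0 ≤ B := (abs_nonneg _).trans (hB x)
  unfold A2avg
  rcases Nat.eq_zero_or_pos T with h | h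
  · subst h; simpa using hB0
  · have hT : (0 : ℝ) < T := by exact_mod_cast h
    rw [abs_div, abs_of_pos hT, div_le_iff₀ hT]
    refine (abs_sum_le_sum_abs _ _).trans ?_
    refine (sum_le_card_nsmul _ _ B fun t _ => hB _).trans ?_
    rw [card_range, nsmul_eq_mul, mul_comm]

theorem A2E_tendsto {φ : G → ℝ} (h : A2Bd φ) (v x : G) :
    Tendsto (A2avg v φ x) (A2U : Filter ℕ) (𝓝 (A2E v φ x)) := by
  obtain ⟨B, hB⟩ := h
  have h1 : ∃ a, Tendsto (A2avg v φ x) (A2U : Filter ℕ) (𝓝 a) := by
    have h2 : Set.Icc (-B) B ∈ A2U.map (A2avg v φ x) := by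
      rw [Ultrafilter.mem_map]
      refine Filter.univ_mem' fun T => ?_
      exact abs_le.mp (A2avg_abs_le hB x T)
    obtain ⟨a, _, ha⟩ := isCompact_Icc.ultrafilter_le_nhds' (A2U.map (A2avg v φ x)) h2
    exact ⟨a, ha⟩
  exact tendsto_nhds_limUnder h1

theorem A2E_eq {φ : G → ℝ} {v x : G} {a : ℝ}
    (h : Tendsto (A2avg v φ x) (A2U : Filter ℕ) (𝓝 a)) : A2E v φ x = a :=
  h.limUnder_eq

theorem A2E_abs_le {v : G} {φ : G → ℝ} {B : ℝ} (hB : ∀ x, |φ x| ≤ B) (x : G) :
    |A2E v φ x| ≤ B := by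
  have h := (A2E_tendsto ⟨B, hB⟩ v x).abs
  exact le_of_tendsto h (Eventually.of_forall fun T => A2avg_abs_le hB x T)

theorem A2Bd.E {φ : G → ℝ} (h : A2Bd φ) (v : G) : A2Bd (A2E v φ) := by
  obtain ⟨B, hB⟩ := h
  exact ⟨B, fun x => A2E_abs_le hB x⟩

theorem A2Bd.shift {φ : G → ℝ} (h : A2Bd φ) (g : G) : A2Bd fun x => φ (x + g) := by
  obtain ⟨B, hB⟩ := h
  exact ⟨B, fun x => hB _⟩

theorem A2Bd.mul {φ ψ : G → ℝ} (h : A2Bd φ) (h' : A2Bd ψ) : A2Bd fun x => φ x * ψ x := by
  obtain ⟨B, hB⟩ := h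
  obtain ⟨B', hB'⟩ := h'
  refine ⟨B * B', fun x => ?_⟩
  rw [abs_mul]
  exact mul_le_mul (hB x) (hB' x) (abs_nonneg _) ((abs_nonneg _).trans (hB x))

theorem A2Bd.lin [Fintype I] {φ : I → G → ℝ} (h : ∀ i, A2Bd (φ i)) (a : I → ℝ) :
    A2Bd fun x => ∑ i, a i * φ i x := by
  choose B hB using h
  refine ⟨∑ i, |a i| * B i, fun x => ?_⟩
  refine (abs_sum_le_sum_abs _ _).trans (sum_le_sum fun i _ => ?_)
  rw [abs_mul]
  exact mul_le_mul_of_nonneg_left (hB i x) (abs_nonneg _)

/-- Translations commute with the averages. -/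
theorem A2E_shift (v : G) (φ : G → ℝ) (g x : G) :
    A2E v (fun y => φ (y + g)) x = A2E v φ (x + g) := by
  unfold A2E
  congr 1
  funext T
  unfold A2avg
  congr 1
  exact sum_congr rfl fun t _ => by rw [add_right_comm]

theorem A2E_lin [Fintype I] {φ : I → G → ℝ} (h : ∀ i, A2Bd (φ i)) (a : I → ℝ) (v x : G) :
    A2E v (fun y => ∑ i, a i * φ i y) x = ∑ i, a i * A2E v (φ i) x := by
  refine A2E_eq ?_
  have h1 : Tendsto (fun T => ∑ i, a i * A2avg v (φ i) x T) (A2U : Filter ℕ)
      (𝓝 (∑ i, a i * A2E v (φ i) x)) :=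
    tendsto_finsetSum _ fun i _ => (A2E_tendsto (h i) v x).const_mul _
  refine h1.congr fun T => ?_
  unfold A2avg
  rw [sum_comm, sum_div]
  refine sum_congr rfl fun i _ => ?_
  rw [← mul_sum, mul_div_assoc]

theorem A2E_mul_const {φ : G → ℝ} (h : A2Bd φ) (r : ℝ) (v x : G) :
    A2E v (fun y => r * φ y) x = r * A2E v φ x := by
  have := A2E_lin (I := Unit) (φ := fun _ => φ) (fun _ => h) (fun _ => r) v x
  simpa using this

theorem A2E_zero (v x : G) : A2E v (fun _ : G => (0 : ℝ)) x = 0 := by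
  refine A2E_eq ?_
  have : A2avg v (fun _ : G => (0 : ℝ)) x = fun _ => 0 := by
    funext T; simp [A2avg]
  rw [this]
  exact tendsto_const_nhds

theorem A2E_nonneg {φ : G → ℝ} (hb : A2Bd φ) (h : ∀ x, 0 ≤ φ x) (v x : G) : 0 ≤ A2E v φ x := by
  refine ge_of_tendsto (A2E_tendsto hb v x) (Eventually.of_forall fun T => ?_)
  exact div_nonneg (sum_nonneg fun t _ => h _) (Nat.cast_nonneg _)

theorem A2E_invariant {φ : G → ℝ} (hb : A2Bd φ) (v x : G) : A2E v φ (x + v) = A2E v φ x := by
  have h1 := (A2E_tendsto hb v (x + v)).sub (A2E_tendsto hb v x)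
  obtain ⟨B, hB⟩ := hb
  have h2 : Tendsto (fun T => A2avg v φ (x + v) T - A2avg v φ x T) (A2U : Filter ℕ) (𝓝 0) := by
    have h3 : Tendsto (fun T : ℕ => (2 * B) / (T : ℝ)) (A2U : Filter ℕ) (𝓝 0) :=
      (tendsto_const_div_atTop_nhds_zero_nat (2 * B)).mono_left A2U_le
    refine squeeze_zero_norm (fun T => ?_) h3
    rw [Real.norm_eq_abs]
    unfold A2avg
    rw [← sub_div, abs_div, Nat.abs_cast]
    refine div_le_div_of_nonneg_right ?_ (Nat.cast_nonneg _)
    have h4 : ∑ t ∈ range T, φ (x + v + t • v) - ∑ t ∈ range T, φ (x + t • v)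
        = φ (x + T • v) - φ x := by
      have h5 := Finset.sum_range_succ (fun t : ℕ => φ (x + t • v)) T
      have h6 := Finset.sum_range_succ' (fun t : ℕ => φ (x + t • v)) T
      have h7 : ∑ t ∈ range T, φ (x + v + t • v) = ∑ t ∈ range T, φ (x + (t + 1) • v) :=
        sum_congr rfl fun t _ => by rw [add_assoc, succ_nsmul']
      rw [h7]
      rw [h5] at h6
      simp only [zero_smul, add_zero] at h6
      linarith
    rw [h4]
    calc |φ (x + T • v) - φ x| ≤ |φ (x + T • v)| + |φ x| := abs_sub _ _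
      _ ≤ B + B := add_le_add (hB _) (hB _)
      _ = 2 * B := by ring
  have := tendsto_nhds_unique h1 h2
  linarith

theorem A2E_periodic {φ : G → ℝ} {g : G} (h : ∀ x, φ (x + g) = φ x) (v x : G) :
    A2E v φ (x + g) = A2E v φ x := by
  rw [← A2E_shift]
  congr 1
  funext y
  exact h y

theorem A2E_lower {φ : G → ℝ} (hb : A2Bd φ) (h : ∀ x, 0 ≤ φ x) (v : G) {n : ℕ} (hn : 1 ≤ n)
    (hper : ∀ x, φ (x + n • v) = φ x) (x : G) : φ x / n ≤ A2E v φ x := by
  have hn0 : (0 : ℝ) < n := by exact_mod_cast hn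
  have key : ∀ T : ℕ, ∀ x : G, (T : ℝ) * φ x ≤ n * ∑ t ∈ range T, φ (x + t • v) := by
    intro T
    induction T using Nat.strong_induction_on with
    | _ T ih =>
      intro x
      rcases Nat.lt_or_ge T n with h1 | h1
      · rcases Nat.eq_zero_or_pos T with h2 | h2
        · subst h2; simp
        · have h3 : φ x ≤ ∑ t ∈ range T, φ (x + t • v) := by
            have := single_le_sum (f := fun t : ℕ => φ (x + t • v)) (fun t _ => h _)
              (mem_range.mpr h2)
            simpa using this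
          have h4 : (T : ℝ) ≤ n := by exact_mod_cast h1.le
          calc (T : ℝ) * φ x ≤ n * φ x := mul_le_mul_of_nonneg_right h4 (h x)
            _ ≤ _ := mul_le_mul_of_nonneg_left h3 hn0.le
      · obtain ⟨m, rfl⟩ := Nat.exists_eq_add_of_le h1
        rw [sum_range_add]
        have h2 : ∀ t : ℕ, φ (x + (n + t) • v) = φ (x + t • v) := by
          intro t
          rw [add_smul, ← add_assoc, add_right_comm, hper]
        simp only [h2]
        have h3 := ih m (by omega) x
        have h4 : φ x ≤ ∑ t ∈ range n, φ (x + t • v) := by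
          have := single_le_sum (f := fun t : ℕ => φ (x + t • v)) (fun t _ => h _)
            (mem_range.mpr hn)
          simpa using this
        push_cast
        nlinarith [mul_le_mul_of_nonneg_left h4 hn0.le]
  refine ge_of_tendsto (A2E_tendsto hb v x) ?_
  have hev : ∀ᶠ T : ℕ in (A2U : Filter ℕ), 1 ≤ T := A2U_le (eventually_ge_atTop 1)
  filter_upwards [hev] with T hT
  have hT0 : (0 : ℝ) < T := by exact_mod_cast hT
  unfold A2avg
  rw [div_le_div_iff₀ hn0 hT0]
  have := key T x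
  linarith

/-! ### Iterated averages -/

/-- Iterated averages. -/
noncomputable def A2EL : List G → (G → ℝ) → G → ℝ
  | [], φ => φ
  | v :: L, φ => A2E v (A2EL L φ)

theorem A2EL_bd (L : List G) {φ : G → ℝ} (h : A2Bd φ) : A2Bd (A2EL L φ) := by
  induction L with
  | nil => exact h
  | cons v L ih => exact ih.E v

theorem A2EL_shift (L : List G) (φ : G → ℝ) (g : G) :
    A2EL L (fun y => φ (y + g)) = fun x => A2EL L φ (x + g) := by
  induction L with
  | nil => rfl
  | cons v L ih =>
    funext x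
    change A2E v (A2EL L fun y => φ (y + g)) x = A2E v (A2EL L φ) (x + g)
    rw [ih, A2E_shift]

theorem A2EL_lin [Fintype I] (L : List G) {φ : I → G → ℝ} (h : ∀ i, A2Bd (φ i)) (a : I → ℝ) :
    A2EL L (fun y => ∑ i, a i * φ i y) = fun x => ∑ i, a i * A2EL L (φ i) x := by
  induction L with
  | nil => rfl
  | cons v L ih =>
    funext x
    change A2E v (A2EL L fun y => ∑ i, a i * φ i y) x = ∑ i, a i * A2E v (A2EL L (φ i)) x
    rw [ih, A2E_lin (fun i => A2EL_bd L (h i))]

theorem A2EL_zero (L : List G) : A2EL L (fun _ : G => (0 : ℝ)) = fun _ => 0 := by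
  induction L with
  | nil => rfl
  | cons v L ih =>
    funext x
    change A2E v (A2EL L fun _ => 0) x = 0
    rw [ih, A2E_zero]

theorem A2EL_nonneg (L : List G) {φ : G → ℝ} (hb : A2Bd φ) (h : ∀ x, 0 ≤ φ x) (x : G) :
    0 ≤ A2EL L φ x := by
  induction L generalizing x with
  | nil => exact h x
  | cons v L ih => exact A2E_nonneg (A2EL_bd L hb) ih v x

theorem A2EL_periodic (L : List G) {φ : G → ℝ} {g : G} (h : ∀ x, φ (x + g) = φ x) (x : G) :
    A2EL L φ (x + g) = A2EL L φ x := by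
  have h1 := congrFun (A2EL_shift L φ g) x
  have h2 : (fun y => φ (y + g)) = φ := funext h
  rw [h2] at h1
  exact h1.symm

theorem A2EL_invariant (L : List G) {φ : G → ℝ} (hb : A2Bd φ) {v : G} (hv : v ∈ L) (x : G) :
    A2EL L φ (x + v) = A2EL L φ x := by
  induction L generalizing x with
  | nil => simp at hv
  | cons u L ih =>
    rcases List.mem_cons.mp hv with rfl | hv
    · exact A2E_invariant (A2EL_bd L hb) v x
    · exact A2E_periodic (fun y => ih hv y) u x

theorem A2EL_invariant_closure (L : List G) {φ : G → ℝ} (hb : A2Bd φ) {v : G}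
    (hv : v ∈ AddSubgroup.closure {g | g ∈ L}) (x : G) :
    A2EL L φ (x + v) = A2EL L φ x := by
  induction hv using AddSubgroup.closure_induction generalizing x with
  | mem u hu => exact A2EL_invariant L hb hu x
  | zero => rw [add_zero]
  | add u v _ _ hu hv => rw [← add_assoc, hv, hu]
  | neg u _ hu =>
    have := hu (x + -u)
    rw [neg_add_cancel_right] at this
    exact this.symm

theorem A2EL_lower (L : List G) {φ : G → ℝ} (hb : A2Bd φ) (h : ∀ x, 0 ≤ φ x) {n : ℕ}
    (hn : 1 ≤ n) (hper : ∀ v ∈ L, ∀ x, φ (x + n • v) = φ x) (x : G) :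
    φ x / n ^ L.length ≤ A2EL L φ x := by
  induction L generalizing x with
  | nil => simp [A2EL]
  | cons v L ih =>
    have hn0 : (0 : ℝ) < n := by exact_mod_cast hn
    have h1 := ih (fun u hu => hper u (List.mem_cons_of_mem _ hu)) x
    have h2 := A2E_lower (A2EL_bd L hb) (A2EL_nonneg L hb h) v hn
      (fun y => A2EL_periodic L (hper v (List.mem_cons_self ..)) y) x
    refine le_trans ?_ h2
    rw [List.length_cons, pow_succ, ← div_div]
    exact div_le_div_of_nonneg_right h1 hn0.le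

/-! ### Good pairs -/

/-- The pairs of functions obtained by averaging. -/
structure A2Good [Fintype I] (w : I → G) (a : I → ℝ) (q : ℤ) (r : ℝ) (h f : G → ℝ) : Prop where
  bh : A2Bd h
  bf : A2Bd f
  eq : ∀ x, h x = r * ∑ i, a i * f (x - q • w i)
  rel : ∀ n : ℤ, IsCoprime n (((Fintype.card I).factorial : ℕ) : ℤ) →
    ∀ x, ∑ i, a i * h (x - n • w i) = 0

theorem A2Good.E [Fintype I] {w : I → G} {a : I → ℝ} {q : ℤ} {r : ℝ} {h f : G → ℝ}
    (H : A2Good w a q r h f) (v : G) : A2Good w a q r (A2E v h) (A2E v f) where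
  bh := H.bh.E v
  bf := H.bf.E v
  eq := by
    intro x
    have h1 : h = fun x => r * ∑ i, a i * f (x + -(q • w i)) := by
      funext y
      rw [H.eq y]
      simp only [sub_eq_add_neg]
    have hb : ∀ i, A2Bd fun y => f (y + -(q • w i)) := fun i => H.bf.shift _
    conv_lhs => rw [h1]
    rw [A2E_mul_const (A2Bd.lin hb a) r v x, A2E_lin hb a v x]
    congr 1
    refine sum_congr rfl fun i _ => ?_
    rw [A2E_shift v f (-(q • w i)) x, sub_eq_add_neg]
  rel := by
    intro n hn x
    have hb : ∀ i, A2Bd fun y => h (y + -(n • w i)) := fun i => H.bh.shift _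
    have h1 := A2E_lin hb a v x
    have h2 : (fun y => ∑ i, a i * h (y + -(n • w i))) = fun _ => 0 := by
      funext y
      have := H.rel n hn y
      simpa only [sub_eq_add_neg] using this
    rw [h2, A2E_zero] at h1
    rw [h1]
    refine sum_congr rfl fun i _ => ?_
    rw [A2E_shift v h (-(n • w i)) x, sub_eq_add_neg]

/-- The common periods. -/
def A2Per (h f : G → ℝ) : AddSubgroup G where
  carrier := {g | (∀ x, h (x + g) = h x) ∧ ∀ x, f (x + g) = f x}
  zero_mem' := by simp
  add_mem' := by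
    rintro a b ⟨h1, h2⟩ ⟨h3, h4⟩
    exact ⟨fun x => by rw [← add_assoc, h3, h1], fun x => by rw [← add_assoc, h4, h2]⟩
  neg_mem' := by
    rintro a ⟨h1, h2⟩
    refine ⟨fun x => ?_, fun x => ?_⟩
    · have := h1 (x + -a)
      rw [neg_add_cancel_right] at this
      exact this.symm
    · have := h2 (x + -a)
      rw [neg_add_cancel_right] at this
      exact this.symm

theorem A2Per_E {h f : G → ℝ} {g : G} (hg : g ∈ A2Per h f) (v : G) :
    g ∈ A2Per (A2E v h) (A2E v f) :=
  ⟨fun x => A2E_periodic hg.1 v x, fun x => A2E_periodic hg.2 v x⟩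

theorem A2_mem_E {h f : G → ℝ} (bh : A2Bd h) (bf : A2Bd f) (v : G) :
    v ∈ A2Per (A2E v h) (A2E v f) :=
  ⟨fun x => A2E_invariant bh v x, fun x => A2E_invariant bf v x⟩

/-- If generators of a rational subspace have multiples in a subgroup then so do all elements. -/
theorem A2_span_multiple [Module ℚ G] (H : AddSubgroup G) (T : Set G)
    (hT : ∀ t ∈ T, ∃ n : ℕ, 1 ≤ n ∧ n • t ∈ H) (u : G) (hu : u ∈ Submodule.span ℚ T) :
    ∃ n : ℕ, 1 ≤ n ∧ n • u ∈ H := by
  induction hu using Submodule.span_induction with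
  | mem x hx => exact hT x hx
  | zero => exact ⟨1, le_rfl, by simp⟩
  | add x y _ _ hx hy =>
    obtain ⟨n, hn, h1⟩ := hx
    obtain ⟨m, hm, h2⟩ := hy
    refine ⟨m * n, Nat.mul_pos hm hn, ?_⟩
    rw [smul_add]
    refine H.add_mem ?_ ?_
    · rw [mul_smul]; exact H.nsmul_mem h1 m
    · rw [mul_comm, mul_smul]; exact H.nsmul_mem h2 n
  | smul q x _ hx =>
    obtain ⟨n, hn, h1⟩ := hx
    refine ⟨q.den * n, Nat.mul_pos q.den_pos hn, ?_⟩
    have h2 : (q.den * n) • q • x = q.num • n • x := by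
      have h3 : ((q.den * n : ℕ) : ℚ) * q = (q.num : ℚ) * (n : ℚ) := by
        push_cast
        have := Rat.den_mul_eq_num q
        linear_combination (n : ℚ) * this
      calc (q.den * n) • q • x = ((q.den * n : ℕ) : ℚ) • q • x := by
            rw [Nat.cast_smul_eq_nsmul]
        _ = (((q.den * n : ℕ) : ℚ) * q) • x := by rw [smul_smul]
        _ = ((q.num : ℚ) * (n : ℚ)) • x := by rw [h3]
        _ = (q.num : ℚ) • ((n : ℚ) • x) := by rw [smul_smul]
        _ = q.num • n • x := by rw [Nat.cast_smul_eq_nsmul, Int.cast_smul_eq_zsmul]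
    rw [h2]
    exact H.zsmul_mem h1 _

/-- The saturation of the subgroup of periods. -/
def A2Sat (h f : G → ℝ) : AddSubgroup G where
  carrier := {g | ∃ n : ℕ, 1 ≤ n ∧ n • g ∈ A2Per h f}
  zero_mem' := ⟨1, le_rfl, by simp⟩
  add_mem' := by
    rintro a b ⟨n, hn, h1⟩ ⟨m, hm, h2⟩
    refine ⟨m * n, Nat.mul_pos hm hn, ?_⟩
    rw [smul_add]
    refine (A2Per h f).add_mem ?_ ?_
    · rw [mul_smul]; exact (A2Per h f).nsmul_mem h1 m
    · rw [mul_comm, mul_smul]; exact (A2Per h f).nsmul_mem h2 n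
  neg_mem' := by
    rintro a ⟨n, hn, h1⟩
    exact ⟨n, hn, by rw [smul_neg]; exact (A2Per h f).neg_mem h1⟩

theorem A2Sat_E {h f : G → ℝ} {g : G} (hg : g ∈ A2Sat h f) (v : G) :
    g ∈ A2Sat (A2E v h) (A2E v f) := by
  obtain ⟨n, hn, h1⟩ := hg
  exact ⟨n, hn, A2Per_E h1 v⟩

/-- A good pair with a maximal set of almost periodic differences. -/
theorem A2_maximal [Fintype I] {w : I → G} {a : I → ℝ} {q : ℤ} {r : ℝ} {h f : G → ℝ}
    (H : A2Good w a q r h f) {x0 : G} (hx0 : h x0 ≠ 0) :
    ∃ h' f' : G → ℝ, A2Good w a q r h' f' ∧ (∃ x, h' x ≠ 0) ∧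
      ∀ i j : I, w i - w j ∉ A2Sat h' f' → ∀ m : ℤ, m ≠ 0 →
        ∀ x, A2E (m • (w i - w j)) h' x = 0 := by
  classical
  let D : (G → ℝ) → (G → ℝ) → Finset (I × I) := fun h f =>
    univ.filter fun p => w p.1 - w p.2 ∈ A2Sat h f
  let P : ℕ → Prop := fun d => ∃ h f : G → ℝ, A2Good w a q r h f ∧ (∃ x, h x ≠ 0) ∧
    (D h f).card = d
  have hP : ∃ d, P d := ⟨_, h, f, H, ⟨x0, hx0⟩, rfl⟩
  have hbd : ∀ d, P d → d ≤ Fintype.card (I × I) := by
    rintro d ⟨h, f, _, _, rfl⟩
    exact card_le_univ _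
  obtain ⟨d, hd, hmax⟩ : ∃ d, P d ∧ ∀ d', P d' → d' ≤ d := by
    refine ⟨Nat.findGreatest P (Fintype.card (I × I)), ?_, ?_⟩
    · obtain ⟨d, hd⟩ := hP
      exact Nat.findGreatest_spec (hbd d hd) hd
    · intro d' hd'
      exact Nat.le_findGreatest (hbd d' hd') hd'
  obtain ⟨h', f', H', hne, hcard⟩ := hd
  refine ⟨h', f', H', hne, ?_⟩
  intro i j hij m hm x
  by_contra hx
  have h1 : P (D (A2E (m • (w i - w j)) h') (A2E (m • (w i - w j)) f')).card :=
    ⟨_, _, H'.E _, ⟨x, hx⟩, rfl⟩
  have h2 := hmax _ h1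
  rw [← hcard] at h2
  have h3 : D h' f' ⊆ D (A2E (m • (w i - w j)) h') (A2E (m • (w i - w j)) f') := by
    intro p hp
    rw [mem_filter] at hp ⊢
    exact ⟨mem_univ _, A2Sat_E hp.2 _⟩
  have h4 := eq_of_subset_of_card_le h3 h2
  have h5 : (i, j) ∈ D (A2E (m • (w i - w j)) h') (A2E (m • (w i - w j)) f') := by
    rw [mem_filter]
    refine ⟨mem_univ _, m.natAbs, Int.natAbs_pos.mpr hm, ?_⟩
    have h6 := A2_mem_E H'.bh H'.bf (m • (w i - w j))
    rcases Int.natAbs_eq m with h7 | h7
    · have h8 : (m.natAbs • (w i - w j)) = m • (w i - w j) := by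
        conv_rhs => rw [h7]
        rw [natCast_zsmul]
      rw [h8]
      exact h6
    · have h8 : (m.natAbs • (w i - w j)) = -(m • (w i - w j)) := by
        conv_rhs => rw [h7]
        rw [neg_smul, natCast_zsmul, neg_neg]
      rw [h8]
      exact (A2Per _ _).neg_mem h6
  rw [← h4, mem_filter] at h5
  exact hij h5.2

/-- A common multiple of the differences in the saturation lies in the subgroup of periods. -/
theorem A2_common [Fintype I] (w : I → G) (h f : G → ℝ) :
    ∃ n : ℕ, 1 ≤ n ∧ ∀ i j : I, w i - w j ∈ A2Sat h f → n • (w i - w j) ∈ A2Per h f := by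
  classical
  have h1 : ∀ p : I × I, ∃ n : ℕ, 1 ≤ n ∧
      (w p.1 - w p.2 ∈ A2Sat h f → n • (w p.1 - w p.2) ∈ A2Per h f) := by
    intro p
    by_cases hp : w p.1 - w p.2 ∈ A2Sat h f
    · obtain ⟨n, hn, h2⟩ := hp
      exact ⟨n, hn, fun _ => h2⟩
    · exact ⟨1, le_rfl, fun h => absurd h hp⟩
  choose n hn h2 using h1
  refine ⟨∏ p, n p, Nat.one_le_iff_ne_zero.mpr (prod_ne_zero_iff.mpr fun p _ => ?_), ?_⟩
  · exact Nat.one_le_iff_ne_zero.mp (hn p)
  · intro i j hij
    obtain ⟨c, hc⟩ := dvd_prod_of_mem n (mem_univ (i, j))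
    rw [hc, mul_comm, mul_smul]
    exact (A2Per h f).nsmul_mem (h2 (i, j) hij) c

theorem A2E_const_of_period {φ : G → ℝ} {v : G} (hv : ∀ x, φ (x + v) = φ x) (x : G) :
    A2E v φ x = φ x := by
  refine A2E_eq ?_
  have h1 : ∀ t : ℕ, φ (x + t • v) = φ x := by
    intro t
    induction t with
    | zero => simp
    | succ t ih => rw [succ_nsmul, ← add_assoc, hv, ih]
  refine tendsto_const_nhds.congr' ?_
  have hev : ∀ᶠ T : ℕ in (A2U : Filter ℕ), 1 ≤ T := A2U_le (eventually_ge_atTop 1)
  filter_upwards [hev] with T hT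
  have hT0 : (T : ℝ) ≠ 0 := by
    have : (0 : ℝ) < T := by exact_mod_cast hT
    exact this.ne'
  unfold A2avg
  simp only [h1, sum_const, card_range, nsmul_eq_mul]
  rw [mul_div_cancel_left₀ _ hT0]

open scoped Classical in
/-- The relation inside one class. -/
theorem A2_class [Fintype I] {w : I → G} {a : I → ℝ} {q : ℤ} {r : ℝ} {h f : G → ℝ}
    (hq : IsCoprime q (((Fintype.card I).factorial : ℕ) : ℤ))
    (H : A2Good w a q r h f)
    (hz : ∀ i j : I, w i - w j ∉ A2Sat h f → ∀ m : ℤ, m ≠ 0 →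
        ∀ x, A2E (m • (w i - w j)) h x = 0) (j : I) (x : G) :
    ∑ i, a i * (if w i - w j ∈ A2Sat h f then h (x + q • (w i - w j)) else 0) = 0 := by
  classical
  obtain ⟨n1, hn1, hper⟩ := A2_common w h f
  set K : ℕ := (Fintype.card I).factorial with hK
  have hK0 : (K : ℤ) ≠ 0 := by
    have := Nat.factorial_pos (Fintype.card I)
    rw [← hK] at this
    exact_mod_cast this.ne'
  have hn0 : (n1 : ℤ) ≠ 0 := by
    have : n1 ≠ 0 := by omega
    exact_mod_cast this
  -- the relation for `n = -q + t n1 K`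
  let v : I → G := fun i => (-((n1 : ℤ) * K)) • (w i - w j)
  have h1 : ∀ t : ℕ, ∑ i, a i * h (x + q • (w i - w j) + t • v i) = 0 := by
    intro t
    have hcop : IsCoprime (-q + (t * n1 : ℤ) * K) (K : ℤ) :=
      IsCoprime.add_mul_right_left hq.neg_left _
    have h2 := H.rel _ hcop (x + (-q + (t * n1 : ℤ) * K) • w j)
    rw [← h2]
    refine sum_congr rfl fun i _ => ?_
    congr 2
    simp only [v]
    rw [← natCast_zsmul]
    module
  have h2 : ∀ T : ℕ, ∑ i, a i * A2avg (v i) h (x + q • (w i - w j)) T = 0 := by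
    intro T
    have h3 : ∑ i, a i * A2avg (v i) h (x + q • (w i - w j)) T
        = (∑ t ∈ range T, ∑ i, a i * h (x + q • (w i - w j) + t • v i)) / T := by
      unfold A2avg
      rw [sum_comm, sum_div]
      refine sum_congr rfl fun i _ => ?_
      rw [← mul_sum, mul_div_assoc]
    rw [h3]
    simp [h1]
  have h3 : ∑ i, a i * A2E (v i) h (x + q • (w i - w j)) = 0 := by
    have h4 : Tendsto (fun T => ∑ i, a i * A2avg (v i) h (x + q • (w i - w j)) T)
        (A2U : Filter ℕ) (𝓝 (∑ i, a i * A2E (v i) h (x + q • (w i - w j)))) :=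
      tendsto_finsetSum _ fun i _ => (A2E_tendsto H.bh _ _).const_mul _
    refine tendsto_nhds_unique h4 ?_
    have h5 : (fun T => ∑ i, a i * A2avg (v i) h (x + q • (w i - w j)) T) = fun _ => 0 :=
      funext h2
    rw [h5]
    exact tendsto_const_nhds
  refine Eq.trans ?_ h3
  refine sum_congr rfl fun i _ => ?_
  congr 1
  split_ifs with hi
  · symm
    refine A2E_const_of_period ?_ _
    have h6 : v i ∈ A2Per h f := by
      have h7 := hper i j hi
      have h8 : v i = (-(K : ℤ)) • (n1 • (w i - w j)) := by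
        simp only [v]
        rw [← natCast_zsmul]
        module
      rw [h8]
      exact (A2Per h f).zsmul_mem h7 _
    exact h6.1
  · symm
    exact hz i j hi _ (neg_ne_zero.mpr (mul_ne_zero hn0 hK0)) _

/-- There is no nonzero good pair. -/
theorem A2_no_good [Fintype I] {w : I → G} {a : I → ℝ} {q : ℤ} {r : ℝ} {h f : G → ℝ}
    (hq : IsCoprime q (((Fintype.card I).factorial : ℕ) : ℤ))
    (H : A2Good w a q r h f) (x : G) : h x = 0 := by
  classical
  by_contra hx
  obtain ⟨h', f', H', ⟨x1, hx1⟩, hz⟩ := A2_maximal H hx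
  clear H hx x
  have hcl := A2_class hq H' hz
  obtain ⟨n1, hn1, hper⟩ := A2_common w h' f'
  let R : Setoid I :=
    { r := fun i j => w i - w j ∈ A2Sat h' f'
      iseqv :=
        { refl := fun i => by
            have : w i - w i = 0 := sub_self _
            rw [this]; exact (A2Sat h' f').zero_mem
          symm := fun {i j} hij => by
            have : w j - w i = -(w i - w j) := (neg_sub _ _).symm
            rw [this]; exact (A2Sat h' f').neg_mem hij
          trans := fun {i j k} hij hjk => by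
            have : w i - w k = (w i - w j) + (w j - w k) := by abel
            rw [this]; exact (A2Sat h' f').add_mem hij hjk } }
  let Ds : Finset (I × I) := univ.filter fun p => w p.1 - w p.2 ∈ A2Sat h' f'
  let L : List G := Ds.toList.map fun p => w p.1 - w p.2
  have hL : ∀ g, g ∈ L ↔ ∃ i j, w i - w j ∈ A2Sat h' f' ∧ w i - w j = g := by
    intro g
    simp only [L, List.mem_map, mem_toList, Ds, mem_filter, mem_univ, true_and, Prod.exists]
  -- the functions
  let g : I → G → ℝ := fun i y => f' (y + -(q • w i)) * h' y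
  have hgb : ∀ i, A2Bd (g i) := fun i => (H'.bf.shift _).mul H'.bh
  have hsq : ∀ y, h' y * h' y = ∑ i, (r * a i) * g i y := by
    intro y
    have h1 := H'.eq y
    calc h' y * h' y = (r * ∑ i, a i * f' (y - q • w i)) * h' y := by rw [← h1]
      _ = ∑ i, (r * a i) * g i y := by
        rw [mul_sum, sum_mul]
        refine sum_congr rfl fun i _ => ?_
        simp only [g, sub_eq_add_neg]
        ring
  have hbsq : A2Bd fun y => h' y * h' y := H'.bh.mul H'.bh
  have hpos : ∀ y, 0 ≤ h' y * h' y := fun y => mul_self_nonneg _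
  have hlow := A2EL_lower L hbsq hpos hn1 (fun v hv y => by
    obtain ⟨i, j, hij, rfl⟩ := (hL v).mp hv
    have := (hper i j hij).1 y
    rw [this]) x1
  have hzero : A2EL L (fun y => h' y * h' y) x1 = 0 := by
    have h1 : (fun y => h' y * h' y) = fun y => ∑ i, (r * a i) * g i y := funext hsq
    rw [h1, A2EL_lin L hgb]
    refine sum_cancels_of_partition_cancels R fun j _ => ?_
    -- the class of `j`
    have h2 : ∀ i, w i - w j ∈ A2Sat h' f' →
        A2EL L (g i) x1 = A2EL L (fun y => f' (y + -(q • w j)) * h' (y + q • (w i - w j))) x1 := by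
      intro i hij
      have h3 : q • (w i - w j) ∈ AddSubgroup.closure {g : G | g ∈ L} :=
        (AddSubgroup.closure {y : G | y ∈ L}).zsmul_mem
          (AddSubgroup.subset_closure ((hL _).mpr ⟨i, j, hij, rfl⟩)) q
      have h4 := A2EL_invariant_closure L (hgb i) h3 x1
      have h5 := congrFun (A2EL_shift L (g i) (q • (w i - w j))) x1
      rw [← h4, ← h5]
      congr 1
      funext y
      simp only [g]
      congr 2
      module
    have h6 : ∑ i with R.r i j, (r * a i) * A2EL L (g i) x1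
        = ∑ i, (r * a i) * A2EL L (fun y => f' (y + -(q • w j)) *
          (if w i - w j ∈ A2Sat h' f' then h' (y + q • (w i - w j)) else 0)) x1 := by
      rw [sum_filter]
      refine sum_congr rfl fun i _ => ?_
      by_cases hij : w i - w j ∈ A2Sat h' f'
      · rw [if_pos (show R.r i j from hij), h2 i hij]
        simp only [if_pos hij]
      · rw [if_neg (show ¬ R.r i j from hij)]
        simp only [if_neg hij, mul_zero]
        rw [A2EL_zero, mul_zero]
    have h7 : ∑ i with R.r i j, (r * a i) * A2EL L (g i) x1 = 0 := by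
      rw [h6]
      have hb : ∀ i, A2Bd (fun y => f' (y + -(q • w j)) *
          (if w i - w j ∈ A2Sat h' f' then h' (y + q • (w i - w j)) else 0)) := by
        intro i
        by_cases hij : w i - w j ∈ A2Sat h' f'
        · simp only [if_pos hij]
          exact (H'.bf.shift _).mul (H'.bh.shift _)
        · simp only [if_neg hij, mul_zero]
          exact ⟨0, fun x => by simp⟩
      have h8 := congrFun (A2EL_lin L hb (fun i => r * a i)) x1
      rw [← h8]
      have h9 : (fun y => ∑ i, (r * a i) * (f' (y + -(q • w j)) *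
          (if w i - w j ∈ A2Sat h' f' then h' (y + q • (w i - w j)) else 0))) = fun _ => 0 := by
        funext y
        have := hcl j y
        have h10 : ∑ i, (r * a i) * (f' (y + -(q • w j)) *
            (if w i - w j ∈ A2Sat h' f' then h' (y + q • (w i - w j)) else 0))
            = (r * f' (y + -(q • w j))) * ∑ i, a i *
            (if w i - w j ∈ A2Sat h' f' then h' (y + q • (w i - w j)) else 0) := by
          rw [mul_sum]
          refine sum_congr rfl fun i _ => ?_
          ring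
        rw [h10, this, mul_zero]
      rw [h9, A2EL_zero]
    exact h7
  rw [hzero] at hlow
  have hn0 : (0 : ℝ) < (n1 : ℝ) ^ L.length := by
    have : (0 : ℝ) < n1 := by exact_mod_cast hn1
    positivity
  have h11 : h' x1 * h' x1 ≤ 0 := by
    by_contra hcon
    push Not at hcon
    have := div_pos hcon hn0
    linarith
  have h12 : h' x1 * h' x1 = 0 := le_antisymm h11 (hpos _)
  exact hx1 (mul_self_eq_zero.mp h12)

/-! ### Real coefficients -/

/-- Uniform Frobenius for real coefficients and an integer valued function. -/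
theorem A2_frobenius_real [Fintype I] (w : I → G) (a : I → ℝ) (c : G → ℤ) (B : ℤ)
    (hB : ∀ x, |c x| ≤ B) (h : ∀ x, ∑ i, a i * (c (x - w i) : ℝ) = 0) (n : ℤ)
    (hn : IsCoprime n (((Fintype.card I).factorial : ℕ) : ℤ)) :
    ∀ x, ∑ i, a i * (c (x - n • w i) : ℝ) = 0 := by
  classical
  intro x
  rw [← Module.forall_dual_apply_eq_zero_iff ℚ]
  intro φ
  have key : ∀ (u : I → G), φ (∑ i, a i * (c (u i) : ℝ)) = ∑ i, φ (a i) * (c (u i) : ℚ) := by
    intro u
    rw [map_sum]
    refine sum_congr rfl fun i _ => ?_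
    have h1 : a i * (c (u i) : ℝ) = ((c (u i) : ℚ)) • a i := by
      rw [Rat.smul_def]; push_cast; ring
    rw [h1, map_smul, smul_eq_mul, mul_comm]
  rw [key]
  -- common denominator
  obtain ⟨M, hM, b, hb⟩ : ∃ M : ℤ, M ≠ 0 ∧ ∃ b : I → ℤ, ∀ i, (b i : ℚ) = M * φ (a i) := by
    refine ⟨∏ i, ((φ (a i)).den : ℤ), ?_, fun i => (φ (a i)).num *
      ∏ j ∈ univ.erase i, ((φ (a j)).den : ℤ), fun i => ?_⟩
    · rw [prod_ne_zero_iff]
      intro i _
      exact_mod_cast (φ (a i)).den_ne_zero
    · rw [← mul_prod_erase univ (fun i => ((φ (a i)).den : ℤ)) (mem_univ i)]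
      push_cast
      have := Rat.den_mul_eq_num (φ (a i))
      rw [← this]
      ring
  have h1 : ∀ y, ∑ i, b i * c (y - w i) = 0 := by
    intro y
    have h2 : φ (∑ i, a i * (c (y - w i) : ℝ)) = 0 := by rw [h y, map_zero]
    rw [key] at h2
    have h3 : ((∑ i, b i * c (y - w i) : ℤ) : ℚ) = M * ∑ i, φ (a i) * (c (y - w i) : ℚ) := by
      push_cast
      rw [mul_sum]
      refine sum_congr rfl fun i _ => ?_
      rw [hb]; ring
    rw [h2, mul_zero] at h3
    exact_mod_cast h3
  have h4 := frobenius w b c B hB h1 n hn x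
  have h5 : ((∑ i, b i * c (x - n • w i) : ℤ) : ℚ)
      = M * ∑ i, φ (a i) * (c (x - n • w i) : ℚ) := by
    push_cast
    rw [mul_sum]
    refine sum_congr rfl fun i _ => ?_
    rw [hb]; ring
  rw [h4, Int.cast_zero] at h5
  have hM' : (M : ℚ) ≠ 0 := by exact_mod_cast hM
  rcases mul_eq_zero.mp h5.symm with h6 | h6
  · exact absurd h6 hM'
  · exact h6

/-- The dilation lemma. -/
theorem dilation [Fintype I] (w : I → G) (a : I → ℝ) (f : G → ℝ) (B : ℝ)
    (hB : ∀ x, |f x| ≤ B) (h : ∀ x, ∑ i, a i * f (x - w i) = 0) (q : ℤ)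
    (hq : IsCoprime q (((Fintype.card I).factorial : ℕ) : ℤ)) (r : ℝ) (c : G → ℤ)
    (hc : ∀ x, (c x : ℝ) = r * ∑ i, a i * f (x - q • w i)) : ∀ x, c x = 0 := by
  classical
  have bf : A2Bd f := ⟨B, hB⟩
  have bc : A2Bd fun x => (c x : ℝ) := by
    have h1 : A2Bd fun x => ∑ i, (r * a i) * f (x + -(q • w i)) :=
      A2Bd.lin (fun i => bf.shift _) _
    obtain ⟨C, hC⟩ := h1
    refine ⟨C, fun x => ?_⟩
    refine le_trans (le_of_eq ?_) (hC x)
    change |(c x : ℝ)| = |∑ i, (r * a i) * f (x + -(q • w i))|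
    rw [hc x, mul_sum]
    congr 1
    refine sum_congr rfl fun i _ => ?_
    rw [sub_eq_add_neg]; ring
  have hrel : ∀ x, ∑ i, a i * (c (x - w i) : ℝ) = 0 := by
    intro x
    simp only [hc]
    have h1 : ∀ i, a i * (r * ∑ j, a j * f (x - w i - q • w j))
        = ∑ j, r * (a j * (a i * f ((x - q • w j) - w i))) := by
      intro i
      rw [mul_sum, mul_sum]
      refine sum_congr rfl fun j _ => ?_
      rw [sub_right_comm]; ring
    simp only [h1]
    rw [sum_comm]
    refine sum_eq_zero fun j _ => ?_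
    rw [← mul_sum, ← mul_sum, h, mul_zero, mul_zero]
  obtain ⟨C, hC⟩ := bc
  have hBint : ∀ x, |c x| ≤ ⌈C⌉ := by
    intro x
    have h1 : |(c x : ℝ)| ≤ (⌈C⌉ : ℝ) := (hC x).trans (Int.le_ceil C)
    exact_mod_cast h1
  have H : A2Good w a q r (fun x => (c x : ℝ)) f :=
    { bh := ⟨C, hC⟩
      bf := bf
      eq := hc
      rel := fun n hn x => A2_frobenius_real w a c ⌈C⌉ hBint hrel n hn x }
  intro x
  have := A2_no_good hq H x
  exact_mod_cast this

end A2

end Pool.Agent.MT
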