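import Pool.Agent.H75.MT.Defs

/-!
# Project MT: interface of section 5 (OneStep and compatible rational forms)
-/

namespace Pool.Agent.MT

open Module Submodule

variable {d : ℕ}

/-- 5.1: approximation of tuples of vectors of `EE`, compatible with the tower. -/
def OneStep (VV : Set (Submodule ℝ (Sp d))) (EE : Submodule ℝ (Sp d))
    (Y : Submodule ℝ (Sp d) → Submodule ℚ (Sp d)) : Prop :=
  ∀ (n : ℕ) (γ : Fin n → Sp d), (∀ i, γ i ∈ EE) → ∀ η : ℝ, 0 < η →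
    ∃ γ' : Fin n → Sp d, (∀ i, ‖γ' i - γ i‖ ≤ η) ∧
      ∀ c : Fin n → ℚ, ∀ V ∈ VV,
        (∑ i, c i • γ i ∈ V → ∑ i, c i • γ' i ∈ V) ∧
        (∑ i, c i • γ i ∈ rs (Y V) → ∑ i, c i • γ' i ∈ Y V)

/-- 5.2: compatible rational forms of `EE`. -/
structure Comp (VV : Set (Submodule ℝ (Sp d))) (EE : Submodule ℝ (Sp d))
    (Y : Submodule ℝ (Sp d) → Submodule ℚ (Sp d)) (L : Submodule ℚ (Sp d)) : Prop where
  le : L ≤ rq EE
  fin : Module.Finite ℚ L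
  rank : finrank ℚ L = finrank ℝ EE
  span : ∀ V ∈ VV, rs (L ⊓ rq V) = V
  comp : ∀ V ∈ VV, L ⊓ rq (rs (Y V)) ≤ Y V

end Pool.Agent.MT
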