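import Mathlib

/-!
# Project MT (MP_5140a6_co, S08737): elementary definitions for the geometry of jumps

`(Fin s → ℝ) × ℝ` is the space of dimension `s + 1`; the last coordinate is the direction of the
jump.
-/

namespace Pool.Agent.MT

open MeasureTheory

open Classical in
/-- Integer valued indicator function. -/
noncomputable def ind {X : Type*} (A : Set X) (x : X) : ℤ := if x ∈ A then 1 else 0

/-- The points of `Q` maximising `t - ⟨α, y⟩`. -/
noncomputable def topf {s : ℕ} (α : Fin s → ℝ) (Q : Finset ((Fin s → ℝ) × ℝ)) :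
    Finset ((Fin s → ℝ) × ℝ) :=
  Q.filter fun p => ∀ q ∈ Q, q.2 - ∑ i, α i * q.1 i ≤ p.2 - ∑ i, α i * p.1 i

/-- The points of `Q` minimising `t - ⟨α, y⟩`. -/
noncomputable def botf {s : ℕ} (α : Fin s → ℝ) (Q : Finset ((Fin s → ℝ) × ℝ)) :
    Finset ((Fin s → ℝ) × ℝ) :=
  Q.filter fun p => ∀ q ∈ Q, p.2 - ∑ i, α i * p.1 i ≤ q.2 - ∑ i, α i * q.1 i

/-- Only finitely many of the polytopes `conv (Q i)` meet a bounded set. -/
def LocFin {s : ℕ} {ι : Type*} (Q : ι → Finset ((Fin s → ℝ) × ℝ)) : Prop :=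
  ∀ R : ℝ, {i | ∃ p ∈ convexHull ℝ (Q i : Set ((Fin s → ℝ) × ℝ)), ‖p‖ ≤ R}.Finite

end Pool.Agent.MT
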