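import Pool.Agent.H39.MT.GDefs

/-!
# Module J1: a locally finite sum of indicators of polytopes which is a.e. constant has no jumps

`g = ∑ c i * 1_{conv (Q i)}` on `ℝ^s × ℝ`, a.e. equal to `κ`.  Then for every level `a`, for almost
every `y ∈ ℝ^s`, the facet functions at the level `a` cancel at `(y, a)`.

Proof.  Fix `a`.  For one polytope `K = conv (Q i)` (closed, convex, bounded) with
`m = min`, `M = max` of the last coordinate over `Q i` claim: for almost every `y` there is `r > 0`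
and `u, v ∈ {0, 1}` such that `1_K = u` on the half ball `{(y', t') : |y' - y| < r, a < t' < a + r}`,
`1_K = v` on the half ball `{(y', t') : |y' - y| < r, a - r < t' < a}` and
`1_{conv (topf 0 (Q i))} (y, a) - 1_{conv (botf 0 (Q i))} (y, a) = v - u`.
Note `conv (topf 0 (Q i)) = K ∩ {t = M}`, `conv (botf 0 (Q i)) = K ∩ {t = m}` (if `Q i ≠ ∅`).
The slice `K_a = {y : (y, a) ∈ K}` is convex, so its frontier is null
(`Convex.addHaar_frontier`); take `y` outside of the frontier.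
* `y ∉ K_a`: then `y` is outside of the closed set `K_a`, `(y, a) ∉ K`, a neighbourhood of
  `(y, a)` misses `K`: `u = v = 0`, and `(y, a)` is in none of the two facets.
* `y ∈ interior K_a`: choose `ρ > 0` with `closedBall y ρ ⊆ K_a`.  If `a < M` then there is a point
  `(y₁, M) ∈ K` and the convex hull of `(closedBall y ρ) × {a}` and `(y₁, M)` contains an upper half
  ball, so `u = 1`; if `a = M` then `1_K = 0` above, `u = 0`.  In the same way `v = 1` if `m < a`
  and `v = 0` if `a = m`.  (`m ≤ a ≤ M` as `(y, a) ∈ K`.)  The difference of the facet indicators is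
  `[a = M] - [a = m] = (1 - u) - (1 - v) = v - u`.
For a locally finite countable family: for almost every `y` this holds for all `i` (countable
intersection), only finitely many `conv (Q i)` meet `closedBall (y, a) 1`; take the minimum `r` of
their radii (and `1`).  On the upper half ball `g = ∑ c i * u i`, on the lower one
`g = ∑ c i * v i`; both have positive measure, so both values are `κ`, and
`∑ c i * (v i - u i) = 0`.
-/

namespace Pool.Agent.MT

open MeasureTheory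

namespace J1aux

variable {s : ℕ}

theorem mem_topf {Q : Finset ((Fin s → ℝ) × ℝ)} {p : (Fin s → ℝ) × ℝ} :
    p ∈ topf 0 Q ↔ p ∈ Q ∧ ∀ q ∈ Q, q.2 ≤ p.2 := by
  simp [topf]

theorem mem_botf {Q : Finset ((Fin s → ℝ) × ℝ)} {p : (Fin s → ℝ) × ℝ} :
    p ∈ botf 0 Q ↔ p ∈ Q ∧ ∀ q ∈ Q, p.2 ≤ q.2 := by
  simp [botf]

theorem convex_snd_le (r : ℝ) : Convex ℝ {p : (Fin s → ℝ) × ℝ | p.2 ≤ r} :=
  convex_halfSpace_le (IsLinearMap.mk (fun _ _ => rfl) fun _ _ => rfl) r

theorem convex_le_snd (r : ℝ) : Convex ℝ {p : (Fin s → ℝ) × ℝ | r ≤ p.2} :=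
  convex_halfSpace_ge (IsLinearMap.mk (fun _ _ => rfl) fun _ _ => rfl) r

theorem sub_of_weights {Q T : Finset ((Fin s → ℝ) × ℝ)} (hT : T ⊆ Q) {p : (Fin s → ℝ) × ℝ}
    {w : (Fin s → ℝ) × ℝ → ℝ} (h0 : ∀ q ∈ Q, 0 ≤ w q) (h1 : ∑ q ∈ Q, w q = 1)
    (h2 : ∑ q ∈ Q, w q • q = p) (h3 : ∀ q ∈ Q, q ∉ T → w q = 0) :
    p ∈ convexHull ℝ (T : Set ((Fin s → ℝ) × ℝ)) := by
  rw [Finset.mem_convexHull']
  refine ⟨w, fun q hq => h0 q (hT hq), ?_, ?_⟩
  · rw [← h1]
    exact Finset.sum_subset hT h3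
  · rw [← h2]
    exact Finset.sum_subset hT fun q hq hq' => by rw [h3 q hq hq', zero_smul]

theorem mem_top_iff {Q : Finset ((Fin s → ℝ) × ℝ)} {p : (Fin s → ℝ) × ℝ}
    (hp : p ∈ convexHull ℝ (Q : Set ((Fin s → ℝ) × ℝ))) :
    p ∈ convexHull ℝ (topf 0 Q : Set ((Fin s → ℝ) × ℝ)) ↔
      ∀ q ∈ convexHull ℝ (Q : Set ((Fin s → ℝ) × ℝ)), q.2 ≤ p.2 := by
  constructor
  · intro h
    have h1 : ∀ q ∈ Q, q.2 ≤ p.2 := by
      intro q hq
      have h2 : convexHull ℝ (topf 0 Q : Set ((Fin s → ℝ) × ℝ)) ⊆ {p | q.2 ≤ p.2} :=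
        convexHull_min (fun p' hp' => (mem_topf.mp (Finset.mem_coe.mp hp')).2 q hq)
          (convex_le_snd q.2)
      exact h2 h
    exact fun q hq => convexHull_min (fun q hq => h1 q (Finset.mem_coe.mp hq))
      (convex_snd_le p.2) hq
  · intro h
    rw [Finset.mem_convexHull'] at hp
    obtain ⟨w, h0, h1, h2⟩ := hp
    refine sub_of_weights (fun q hq => (mem_topf.mp hq).1) h0 h1 h2 fun q hq hq' => ?_
    have h3 : ∀ q ∈ Q, q.2 ≤ p.2 := fun q hq => h q (subset_convexHull ℝ _ (Finset.mem_coe.mpr hq))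
    have h4 : ∑ q ∈ Q, w q * (p.2 - q.2) = 0 := by
      have h5 : p.2 = ∑ q ∈ Q, w q * q.2 := by
        rw [← h2, Prod.snd_sum]
        rfl
      simp only [mul_sub, Finset.sum_sub_distrib, ← Finset.sum_mul, h1, one_mul]
      linarith
    have h5 := (Finset.sum_eq_zero_iff_of_nonneg fun q hq =>
      mul_nonneg (h0 q hq) (sub_nonneg.mpr (h3 q hq))).mp h4 q hq
    rcases mul_eq_zero.mp h5 with h6 | h6
    · exact h6
    · exfalso
      apply hq'
      rw [mem_topf]
      exact ⟨hq, fun q' hq' => by rw [← sub_eq_zero.mp h6]; exact h3 q' hq'⟩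

theorem mem_bot_iff {Q : Finset ((Fin s → ℝ) × ℝ)} {p : (Fin s → ℝ) × ℝ}
    (hp : p ∈ convexHull ℝ (Q : Set ((Fin s → ℝ) × ℝ))) :
    p ∈ convexHull ℝ (botf 0 Q : Set ((Fin s → ℝ) × ℝ)) ↔
      ∀ q ∈ convexHull ℝ (Q : Set ((Fin s → ℝ) × ℝ)), p.2 ≤ q.2 := by
  constructor
  · intro h
    have h1 : ∀ q ∈ Q, p.2 ≤ q.2 := by
      intro q hq
      have h2 : convexHull ℝ (botf 0 Q : Set ((Fin s → ℝ) × ℝ)) ⊆ {p | p.2 ≤ q.2} :=
        convexHull_min (fun p' hp' => (mem_botf.mp (Finset.mem_coe.mp hp')).2 q hq)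
          (convex_snd_le q.2)
      exact h2 h
    exact fun q hq => convexHull_min (fun q hq => h1 q (Finset.mem_coe.mp hq))
      (convex_le_snd p.2) hq
  · intro h
    rw [Finset.mem_convexHull'] at hp
    obtain ⟨w, h0, h1, h2⟩ := hp
    refine sub_of_weights (fun q hq => (mem_botf.mp hq).1) h0 h1 h2 fun q hq hq' => ?_
    have h3 : ∀ q ∈ Q, p.2 ≤ q.2 := fun q hq => h q (subset_convexHull ℝ _ (Finset.mem_coe.mpr hq))
    have h4 : ∑ q ∈ Q, w q * (q.2 - p.2) = 0 := by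
      have h5 : p.2 = ∑ q ∈ Q, w q * q.2 := by
        rw [← h2, Prod.snd_sum]
        rfl
      simp only [mul_sub, Finset.sum_sub_distrib, ← Finset.sum_mul, h1, one_mul]
      linarith
    have h5 := (Finset.sum_eq_zero_iff_of_nonneg fun q hq =>
      mul_nonneg (h0 q hq) (sub_nonneg.mpr (h3 q hq))).mp h4 q hq
    rcases mul_eq_zero.mp h5 with h6 | h6
    · exact h6
    · exfalso
      apply hq'
      rw [mem_botf]
      exact ⟨hq, fun q' hq' => by rw [sub_eq_zero.mp h6]; exact h3 q' hq'⟩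

/-- a half ball inside a convex set -/
theorem half {K : Set ((Fin s → ℝ) × ℝ)} (hK : Convex ℝ K) {y : Fin s → ℝ} {a ρ : ℝ} (hρ : 0 < ρ)
    (hball : ∀ z, dist z y ≤ ρ → (z, a) ∈ K) {p : (Fin s → ℝ) × ℝ} (hp : p ∈ K) {σ : ℝ}
    (hσ : 0 < σ * (p.2 - a)) : ∃ r > 0, ∀ (y' : Fin s → ℝ) (t : ℝ), dist y' y < r →
      0 < σ * (t - a) → σ * (t - a) < r → (y', t) ∈ K := by
  obtain ⟨T, hT⟩ : ∃ T, T = σ * (p.2 - a) := ⟨_, rfl⟩
  rw [← hT] at hσ
  obtain ⟨D, hD⟩ : ∃ D, D = dist y p.1 := ⟨_, rfl⟩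
  have hD0 : 0 ≤ D := hD ▸ dist_nonneg
  refine ⟨min (T / 2) (ρ / (2 * (1 + D / T))), lt_min (by positivity) (by positivity),
    fun y' t h1 h2 h3 => ?_⟩
  obtain ⟨θ, hθ⟩ : ∃ θ, θ = σ * (t - a) / T := ⟨_, rfl⟩
  have hθ0 : 0 < θ := hθ ▸ div_pos h2 hσ
  have hθ1 : θ < 1 / 2 := by
    rw [hθ, div_lt_iff₀ hσ]
    have := lt_of_lt_of_le h3 (min_le_left _ _)
    linarith
  have hpos : 0 < 1 + D / T := by positivity
  have hr1 : dist y' y < ρ / (2 * (1 + D / T)) := lt_of_lt_of_le h1 (min_le_right _ _)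
  have hr2 : θ * T < ρ / (2 * (1 + D / T)) := by
    rw [hθ, div_mul_cancel₀ _ hσ.ne']
    exact lt_of_lt_of_le h3 (min_le_right _ _)
  rw [lt_div_iff₀ (by positivity)] at hr1 hr2
  obtain ⟨z, hz⟩ : ∃ z : Fin s → ℝ, z = (1 - θ)⁻¹ • (y' - θ • p.1) := ⟨_, rfl⟩
  have h1θ : (1 - θ) ≠ 0 := by linarith
  have hzy : (1 - θ) • (z - y) = (y' - y) + θ • (y - p.1) := by
    rw [hz, smul_sub, smul_smul, mul_inv_cancel₀ h1θ, one_smul, sub_smul, one_smul, smul_sub]
    abel
  have hdist : dist z y ≤ ρ := by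
    have h4 : (1 - θ) * dist z y ≤ dist y' y + θ * D := by
      have h5 := congrArg norm hzy
      rw [norm_smul, Real.norm_of_nonneg (by linarith : (0 : ℝ) ≤ 1 - θ)] at h5
      rw [dist_eq_norm, h5, hD, dist_eq_norm, dist_eq_norm]
      refine (norm_add_le _ _).trans ?_
      rw [norm_smul, Real.norm_of_nonneg hθ0.le]
    have h6 : dist z y ≤ 2 * (dist y' y + θ * D) := by
      have h7 : 0 ≤ dist z y := dist_nonneg
      nlinarith
    have h8 : 2 * (dist y' y) * (1 + D / T) < ρ := by linarith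
    have h9 : 2 * (θ * T) * (1 + D / T) < ρ := by linarith
    have h10 : θ * D = θ * T * (D / T) := by field_simp
    -- both terms
    have h11 : 2 * (dist y' y + θ * D) ≤ ρ := by
      have hx : dist y' y * (1 + D / T) < ρ / 2 := by linarith
      have hy : θ * T * (1 + D / T) < ρ / 2 := by linarith
      obtain ⟨A, hA⟩ : ∃ A, A = D / T := ⟨_, rfl⟩
      rw [h10]
      rw [← hA] at hx hy ⊢
      have hA0 : 0 ≤ A := hA ▸ by positivity
      have hd : dist y' y < ρ / 2 / (1 + A) := by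
        rw [lt_div_iff₀ (by linarith)]; exact hx
      have ht : θ * T < ρ / 2 / (1 + A) := by
        rw [lt_div_iff₀ (by linarith)]; exact hy
      have h12 : dist y' y + θ * T * A ≤ ρ / 2 / (1 + A) + ρ / 2 / (1 + A) * A := by
        nlinarith
      have h13 : ρ / 2 / (1 + A) + ρ / 2 / (1 + A) * A = ρ / 2 := by
        have : (1 + A) ≠ 0 := by linarith
        field_simp
      linarith
    linarith
  have hmem := hK (hball z hdist) hp (by linarith : (0 : ℝ) ≤ 1 - θ) hθ0.le (by ring)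
  have heq : (1 - θ) • ((z, a) : (Fin s → ℝ) × ℝ) + θ • p = (y', t) := by
    refine Prod.ext ?_ ?_
    · change (1 - θ) • z + θ • p.1 = y'
      rw [hz, smul_smul, mul_inv_cancel₀ h1θ, one_smul, sub_add_cancel]
    · change (1 - θ) • a + θ • p.2 = t
      rw [smul_eq_mul, smul_eq_mul]
      have hσ0 : σ ≠ 0 := by
        rintro rfl
        simp at h2
      have h4 : θ * (p.2 - a) = t - a := by
        have h5 : θ * T = σ * (t - a) := by rw [hθ, div_mul_cancel₀ _ hσ.ne']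
        rw [hT] at h5
        have h6 : σ * (θ * (p.2 - a)) = σ * (t - a) := by linarith
        exact mul_left_cancel₀ hσ0 h6
      linarith
  rw [heq] at hmem
  exact hmem

theorem one (Q : Finset ((Fin s → ℝ) × ℝ)) (a : ℝ) {y : Fin s → ℝ}
    (hy : y ∉ frontier {y : Fin s → ℝ | (y, a) ∈ convexHull ℝ (Q : Set ((Fin s → ℝ) × ℝ))}) :
    ∃ r > 0, ∃ u v : ℤ,
      (∀ (y' : Fin s → ℝ) (t : ℝ), dist y' y < r → a < t → t < a + r →
        ind (convexHull ℝ (Q : Set ((Fin s → ℝ) × ℝ))) (y', t) = u) ∧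
      (∀ (y' : Fin s → ℝ) (t : ℝ), dist y' y < r → a - r < t → t < a →
        ind (convexHull ℝ (Q : Set ((Fin s → ℝ) × ℝ))) (y', t) = v) ∧
      ind (convexHull ℝ (topf 0 Q : Set ((Fin s → ℝ) × ℝ))) (y, a) -
        ind (convexHull ℝ (botf 0 Q : Set ((Fin s → ℝ) × ℝ))) (y, a) = v - u := by
  obtain ⟨K, hK⟩ : ∃ K, K = convexHull ℝ (Q : Set ((Fin s → ℝ) × ℝ)) := ⟨_, rfl⟩
  have hKc : Convex ℝ K := hK ▸ convex_convexHull ℝ _
  have hKcl : IsClosed K := by
    rw [hK]
    exact (Q.finite_toSet.isCompact_convexHull ℝ).isClosed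
  have htop : convexHull ℝ (topf 0 Q : Set ((Fin s → ℝ) × ℝ)) ⊆ K := by
    rw [hK]
    exact convexHull_mono fun p hp => (mem_topf.mp (Finset.mem_coe.mp hp)).1
  have hbot : convexHull ℝ (botf 0 Q : Set ((Fin s → ℝ) × ℝ)) ⊆ K := by
    rw [hK]
    exact convexHull_mono fun p hp => (mem_botf.mp (Finset.mem_coe.mp hp)).1
  by_cases hyK : (y, a) ∈ K
  · have hint : y ∈ interior {y : Fin s → ℝ | (y, a) ∈ K} := by
      by_contra hni
      apply hy
      rw [← hK, frontier_eq_closure_inter_closure]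
      refine ⟨subset_closure hyK, ?_⟩
      rw [← Set.mem_compl_iff, ← closure_compl] at hni
      exact hni
    obtain ⟨ρ, hρ, hball⟩ := Metric.isOpen_iff.mp isOpen_interior y hint
    have hball' : ∀ z, dist z y ≤ ρ / 2 → (z, a) ∈ K := by
      intro z hz
      have hz1 : dist z y < ρ := by linarith
      have hz2 : z ∈ {y : Fin s → ℝ | (y, a) ∈ K} :=
        interior_subset (hball (Metric.mem_ball.mpr hz1))
      exact hz2
    -- upper side
    have hup : ∃ r > 0, ∃ u : ℤ, (∀ (y' : Fin s → ℝ) (t : ℝ), dist y' y < r → a < t → t < a + r →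
        ind K (y', t) = u) ∧
        ind (convexHull ℝ (topf 0 Q : Set ((Fin s → ℝ) × ℝ))) (y, a) = 1 - u := by
      by_cases h : ∀ q ∈ K, q.2 ≤ a
      · refine ⟨1, one_pos, 0, fun y' t _ h2 _ => ?_, ?_⟩
        · exact if_neg fun h' => by
            have := h _ h'
            simp only at this
            linarith
        · have h1 := (mem_top_iff (Q := Q) (p := (y, a)) (hK ▸ hyK)).mpr (by
            rw [← hK]; exact h)
          rw [sub_zero]
          exact if_pos h1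
      · push Not at h
        obtain ⟨p, hp, hpa⟩ := h
        obtain ⟨r, hr, hr'⟩ := half hKc (half_pos hρ) hball' hp (σ := 1) (by linarith)
        refine ⟨r, hr, 1, fun y' t h1 h2 h3 => ?_, ?_⟩
        · exact if_pos (hr' y' t h1 (by linarith) (by linarith))
        · rw [sub_self]
          refine if_neg fun h' => ?_
          have h1 := (mem_top_iff (Q := Q) (p := (y, a)) (hK ▸ hyK)).mp h' p (hK ▸ hp)
          simp only at h1
          linarith
    have hdn : ∃ r > 0, ∃ v : ℤ, (∀ (y' : Fin s → ℝ) (t : ℝ), dist y' y < r → a - r < t → t < a →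
        ind K (y', t) = v) ∧
        ind (convexHull ℝ (botf 0 Q : Set ((Fin s → ℝ) × ℝ))) (y, a) = 1 - v := by
      by_cases h : ∀ q ∈ K, a ≤ q.2
      · refine ⟨1, one_pos, 0, fun y' t _ _ h2 => ?_, ?_⟩
        · exact if_neg fun h' => by
            have := h _ h'
            simp only at this
            linarith
        · have h1 := (mem_bot_iff (Q := Q) (p := (y, a)) (hK ▸ hyK)).mpr (by
            rw [← hK]; exact h)
          rw [sub_zero]
          exact if_pos h1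
      · push Not at h
        obtain ⟨p, hp, hpa⟩ := h
        obtain ⟨r, hr, hr'⟩ := half hKc (half_pos hρ) hball' hp (σ := -1) (by linarith)
        refine ⟨r, hr, 1, fun y' t h1 h2 h3 => ?_, ?_⟩
        · exact if_pos (hr' y' t h1 (by linarith) (by linarith))
        · rw [sub_self]
          refine if_neg fun h' => ?_
          have h1 := (mem_bot_iff (Q := Q) (p := (y, a)) (hK ▸ hyK)).mp h' p (hK ▸ hp)
          simp only at h1
          linarith
    obtain ⟨r1, hr1, u, hu1, hu2⟩ := hup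
    obtain ⟨r2, hr2, v, hv1, hv2⟩ := hdn
    refine ⟨min r1 r2, lt_min hr1 hr2, u, v, ?_, ?_, ?_⟩
    · intro y' t h1 h2 h3
      rw [← hK]
      exact hu1 y' t (lt_of_lt_of_le h1 (min_le_left _ _)) h2
        (lt_of_lt_of_le h3 (by linarith [min_le_left r1 r2]))
    · intro y' t h1 h2 h3
      rw [← hK]
      exact hv1 y' t (lt_of_lt_of_le h1 (min_le_right _ _))
        (lt_of_le_of_lt (by linarith [min_le_right r1 r2]) h2) h3
    · rw [hu2, hv2]
      ring
  · obtain ⟨r, hr, hball⟩ := Metric.isOpen_iff.mp hKcl.isOpen_compl (y, a) hyK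
    have h0 : ∀ (y' : Fin s → ℝ) (t : ℝ), dist y' y < r → dist t a < r →
        ind (convexHull ℝ (Q : Set ((Fin s → ℝ) × ℝ))) (y', t) = 0 := by
      intro y' t h1 h2
      rw [← hK]
      refine if_neg ?_
      have h3 : ((y', t) : (Fin s → ℝ) × ℝ) ∈ Metric.ball (y, a) r := by
        rw [Metric.mem_ball, Prod.dist_eq]
        exact max_lt h1 h2
      exact hball h3
    refine ⟨r, hr, 0, 0, fun y' t h1 h2 h3 => h0 y' t h1 ?_, fun y' t h1 h2 h3 => h0 y' t h1 ?_, ?_⟩
    · rw [Real.dist_eq, abs_lt]; constructor <;> linarith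
    · rw [Real.dist_eq, abs_lt]; constructor <;> linarith
    · have h1 : ind (convexHull ℝ (topf 0 Q : Set ((Fin s → ℝ) × ℝ))) (y, a) = 0 :=
        if_neg fun h => hyK (htop h)
      have h2 : ind (convexHull ℝ (botf 0 Q : Set ((Fin s → ℝ) × ℝ))) (y, a) = 0 :=
        if_neg fun h => hyK (hbot h)
      rw [h1, h2]

theorem exists_in_open {g : (Fin s → ℝ) × ℝ → ℤ} {κ : ℤ} (h : ∀ᵐ p : (Fin s → ℝ) × ℝ, g p = κ)
    {U : Set ((Fin s → ℝ) × ℝ)} (hU : IsOpen U) (hne : U.Nonempty) : ∃ p ∈ U, g p = κ := by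
  by_contra hcon
  push Not at hcon
  have h1 : volume U = 0 := measure_mono_null (fun p hp => hcon p hp) (ae_iff.mp h)
  exact (hU.measure_pos volume hne).ne' h1

end J1aux

theorem J1 {s : ℕ} {ι : Type*} [Countable ι] (Q : ι → Finset ((Fin s → ℝ) × ℝ)) (c : ι → ℤ)
    (hlf : LocFin Q) (κ : ℤ)
    (h : ∀ᵐ p : (Fin s → ℝ) × ℝ,
      ∑ᶠ i, c i * ind (convexHull ℝ (Q i : Set ((Fin s → ℝ) × ℝ))) p = κ) (a : ℝ) :
    ∀ᵐ y : Fin s → ℝ, ∑ᶠ i, c i *
      (ind (convexHull ℝ (topf 0 (Q i) : Set ((Fin s → ℝ) × ℝ))) (y, a) -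
        ind (convexHull ℝ (botf 0 (Q i) : Set ((Fin s → ℝ) × ℝ))) (y, a)) = 0 := by
  classical
  have hae : ∀ᵐ y : Fin s → ℝ, ∀ i, y ∉ frontier {y : Fin s → ℝ |
      (y, a) ∈ convexHull ℝ (Q i : Set ((Fin s → ℝ) × ℝ))} := by
    rw [ae_all_iff]
    intro i
    have hconv : Convex ℝ {y : Fin s → ℝ |
        (y, a) ∈ convexHull ℝ (Q i : Set ((Fin s → ℝ) × ℝ))} := by
      intro x hx z hz p q hp hq hpq
      have h1 := convex_convexHull ℝ (Q i : Set ((Fin s → ℝ) × ℝ)) hx hz hp hq hpq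
      have h2 : p • ((x, a) : (Fin s → ℝ) × ℝ) + q • ((z, a) : (Fin s → ℝ) × ℝ) =
          (p • x + q • z, a) := by
        refine Prod.ext rfl ?_
        change p * a + q * a = a
        rw [← add_mul, hpq, one_mul]
      rw [h2] at h1
      exact h1
    exact measure_eq_zero_iff_ae_notMem.mp (hconv.addHaar_frontier volume)
  filter_upwards [hae] with y hy
  choose r hr u v h1 h2 h3 using fun i => J1aux.one (Q i) a (hy i)
  obtain ⟨I, hI⟩ : ∃ I : Finset ι, I = (hlf (‖(y, a)‖ + 1)).toFinset := ⟨_, rfl⟩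
  have hout : ∀ i, i ∉ I → ∀ p : (Fin s → ℝ) × ℝ, dist p (y, a) < 1 →
      p ∉ convexHull ℝ (Q i : Set ((Fin s → ℝ) × ℝ)) := by
    intro i hi p hp hmem
    apply hi
    rw [hI, Set.Finite.mem_toFinset]
    refine ⟨p, hmem, ?_⟩
    have h4 : ‖p‖ ≤ ‖p - (y, a)‖ + ‖(y, a)‖ := by
      have := norm_add_le (p - (y, a)) (y, a)
      rwa [sub_add_cancel] at this
    rw [dist_eq_norm] at hp
    linarith
  obtain ⟨R, hR, hR1, hRI⟩ : ∃ R : ℝ, 0 < R ∧ R ≤ 1 ∧ ∀ i ∈ I, R ≤ r i := by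
    rcases I.eq_empty_or_nonempty with he | hne
    · exact ⟨1, one_pos, le_rfl, fun i hi => by rw [he] at hi; simp at hi⟩
    · obtain ⟨i0, hi0, hmin⟩ := I.exists_min_image r hne
      exact ⟨min 1 (r i0), lt_min one_pos (hr i0), min_le_left _ _,
        fun i hi => (min_le_right _ _).trans (hmin i hi)⟩
  have hgup : ∀ (y' : Fin s → ℝ) (t : ℝ), dist y' y < R → a < t → t < a + R →
      ∑ᶠ i, c i * ind (convexHull ℝ (Q i : Set ((Fin s → ℝ) × ℝ))) (y', t) =
        ∑ i ∈ I, c i * u i := by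
    intro y' t e1 e2 e3
    rw [finsum_eq_sum_of_support_subset (s := I)]
    · refine Finset.sum_congr rfl fun i hi => ?_
      rw [h1 i y' t (lt_of_lt_of_le e1 (hRI i hi)) e2 (lt_of_lt_of_le e3 (by linarith [hRI i hi]))]
    · intro i hi
      by_contra hni
      apply hi
      have h4 : ((y', t) : (Fin s → ℝ) × ℝ) ∉ convexHull ℝ (Q i : Set ((Fin s → ℝ) × ℝ)) := by
        refine hout i (fun h => hni (Finset.mem_coe.mpr h)) _ ?_
        rw [Prod.dist_eq]
        refine max_lt (lt_of_lt_of_le e1 hR1) ?_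
        change dist t a < 1
        rw [Real.dist_eq, abs_lt]
        constructor <;> linarith
      change c i * ind _ _ = 0
      rw [ind, if_neg h4, mul_zero]
  have hgdn : ∀ (y' : Fin s → ℝ) (t : ℝ), dist y' y < R → a - R < t → t < a →
      ∑ᶠ i, c i * ind (convexHull ℝ (Q i : Set ((Fin s → ℝ) × ℝ))) (y', t) =
        ∑ i ∈ I, c i * v i := by
    intro y' t e1 e2 e3
    rw [finsum_eq_sum_of_support_subset (s := I)]
    · refine Finset.sum_congr rfl fun i hi => ?_
      rw [h2 i y' t (lt_of_lt_of_le e1 (hRI i hi)) (lt_of_le_of_lt (by linarith [hRI i hi]) e2) e3]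
    · intro i hi
      by_contra hni
      apply hi
      have h4 : ((y', t) : (Fin s → ℝ) × ℝ) ∉ convexHull ℝ (Q i : Set ((Fin s → ℝ) × ℝ)) := by
        refine hout i (fun h => hni (Finset.mem_coe.mpr h)) _ ?_
        rw [Prod.dist_eq]
        refine max_lt (lt_of_lt_of_le e1 hR1) ?_
        change dist t a < 1
        rw [Real.dist_eq, abs_lt]
        constructor <;> linarith
      change c i * ind _ _ = 0
      rw [ind, if_neg h4, mul_zero]
  have hup : ∑ i ∈ I, c i * u i = κ := by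
    obtain ⟨p, hp, hgp⟩ := J1aux.exists_in_open h
      (U := Metric.ball y R ×ˢ Set.Ioo a (a + R)) (Metric.isOpen_ball.prod isOpen_Ioo)
      ⟨(y, a + R / 2), Metric.mem_ball_self hR, by constructor <;> simp only <;> linarith⟩
    rw [← hgp]
    exact (hgup p.1 p.2 (Metric.mem_ball.mp hp.1) hp.2.1 hp.2.2).symm
  have hdn : ∑ i ∈ I, c i * v i = κ := by
    obtain ⟨p, hp, hgp⟩ := J1aux.exists_in_open h
      (U := Metric.ball y R ×ˢ Set.Ioo (a - R) a) (Metric.isOpen_ball.prod isOpen_Ioo)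
      ⟨(y, a - R / 2), Metric.mem_ball_self hR, by constructor <;> simp only <;> linarith⟩
    rw [← hgp]
    exact (hgdn p.1 p.2 (Metric.mem_ball.mp hp.1) hp.2.1 hp.2.2).symm
  rw [finsum_eq_sum_of_support_subset (s := I)]
  · calc ∑ i ∈ I, c i * (ind (convexHull ℝ (topf 0 (Q i) : Set ((Fin s → ℝ) × ℝ))) (y, a) -
          ind (convexHull ℝ (botf 0 (Q i) : Set ((Fin s → ℝ) × ℝ))) (y, a)) =
        ∑ i ∈ I, (c i * v i - c i * u i) := by
          refine Finset.sum_congr rfl fun i _ => ?_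
          rw [h3 i]
          ring
      _ = 0 := by rw [Finset.sum_sub_distrib, hup, hdn, sub_self]
  · intro i hi
    by_contra hni
    apply hi
    have h4 : ((y, a) : (Fin s → ℝ) × ℝ) ∉ convexHull ℝ (Q i : Set ((Fin s → ℝ) × ℝ)) :=
      hout i (fun h => hni (Finset.mem_coe.mpr h)) _ (by rw [dist_self]; exact one_pos)
    have h5 : ((y, a) : (Fin s → ℝ) × ℝ) ∉
        convexHull ℝ (topf 0 (Q i) : Set ((Fin s → ℝ) × ℝ)) := fun h =>
      h4 (convexHull_mono (fun p hp => (J1aux.mem_topf.mp (Finset.mem_coe.mp hp)).1) h)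
    have h6 : ((y, a) : (Fin s → ℝ) × ℝ) ∉
        convexHull ℝ (botf 0 (Q i) : Set ((Fin s → ℝ) × ℝ)) := fun h =>
      h4 (convexHull_mono (fun p hp => (J1aux.mem_botf.mp (Finset.mem_coe.mp hp)).1) h)
    change c i * (ind _ _ - ind _ _) = 0
    rw [ind, if_neg h5, ind, if_neg h6, sub_zero, mul_zero]

end Pool.Agent.MT
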