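import Pool.Agent.H39.MT.GDefs

/-!
# Module J2: no jumps implies constant along the last direction

`g = ∑ c i * 1_{conv (Q i)}` on `ℝ^s × ℝ` (countable, locally finite).  Suppose that for every
`α ∈ ℝ^s` and every level `a` the facet functions for the functional `t - ⟨α, y⟩` cancel at
`(y, a + ⟨α, y⟩)` for almost every `y`.  Then for almost every `y` the function `t ↦ g (y, t)` is
almost everywhere constant.

Proof.  (PF) For a finite set `Q ⊆ ℝ^s × ℝ`, `K = conv Q`, for almost every `y`: if the line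
`ℓ_y = {(y, t)}` meets `K` and `t₀` is the largest `t` with `(y, t) ∈ K`, then there is `α` such that
`(y, t₀) ∈ conv (topf α Q)` and `α` belongs to the finite set of those `α` for which
`topf α Q` projects onto an affinely spanning set of `ℝ^s` (an `α` with this property is determined
by the set `topf α Q`, so there are finitely many such `α`).  Proof: let `y` be outside of the sets
`conv (pr Q')`, `Q' ⊆ Q`, `pr Q'` not affinely spanning (finitely many null sets).  By Carathéodory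
`(y, t₀) = ∑ μ_v v` with positive weights on an affinely independent `Q'' ⊆ Q`; `pr Q''` is
affinely spanning, so `|Q''| ≥ s + 1`; if `|Q''| = s + 2` then `(y, t₀)` would be an interior point
of a simplex, contradicting the maximality of `t₀`; so `|Q''| = s + 1`, `pr Q''` is affinely
independent and spanning, `y` is an interior point of the simplex `conv (pr Q'')`.  Let
`t = a + ⟨α, y⟩` be the hyperplane through `Q''`.  If some `w ∈ Q` were strictly above it, then for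
small `θ > 0` the point `(y - θ pr w) / (1 - θ)` is still in `conv (pr Q'')`, and
`(1 - θ) * (point of conv Q'' above it) + θ w` is a point of `K` on `ℓ_y` above `t₀`: contradiction.
Hence `Q'' ⊆ topf α Q`.  The same for the lowest point and `botf α Q` (reflect `t ↦ -t`).
Conversely if `(y, t) ∈ conv (topf α Q)` for any `α` then `t` is the largest `t` with `(y, t) ∈ K`.
Main proof.  The set `Z` of pairs `(α, a)` that occur (for some `i`, with `a` the value of
`t - ⟨α, y⟩` on `topf α (Q i)` or `botf α (Q i)`) is countable.  Let `y` be outside of the null sets: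
exceptional sets of (PF) for all `i`; exceptional sets of the hypothesis for `(α, a) ∈ Z`;
`{y : a + ⟨α, y⟩ = a' + ⟨α', y⟩}` for different `(α, a), (α', a') ∈ Z` (null, or empty).
Then `K_i ∩ ℓ_y` is empty or `{y} × [b_i, t_i]`.  Let `t₀` be any real number.  If
`t₀ = a + ⟨α, y⟩` for a (unique) `(α, a) ∈ Z` then `[t₀ = t_i] = 1_{conv (topf α (Q i))} (y, t₀)` and
`[t₀ = b_i] = 1_{conv (botf α (Q i))} (y, t₀)`, so
`g (y, t₀ - 0) - g (y, t₀ + 0) = ∑ c i ([t₀ = t_i] - [t₀ = b_i]) = 0`; for other `t₀` there is no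
endpoint at `t₀`.  The endpoints are locally finite, so `g (y, ·)` is constant off a countable set.
-/

namespace Pool.Agent.MT

open MeasureTheory

namespace J2aux

open Filter Topology

/-- Term by term identity. -/
lemma ite_id (b T t : ℝ) : ((if b ≤ t ∧ t < T then 1 else 0 : ℤ) - (if b < t ∧ t ≤ T then 1 else 0)) =
    (if b ≤ T ∧ t = b then 1 else 0) - (if b ≤ T ∧ t = T then 1 else 0) := by
  split_ifs <;> first | rfl | (exfalso; grind)

lemma finsum_supp {ι : Type*} (c : ι → ℤ) (p : ι → Prop) [DecidablePred p] (S : Finset ι)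
    (h : ∀ i, p i → i ∈ S) :
    ∑ᶠ i, c i * (if p i then 1 else 0) = ∑ i ∈ S, c i * (if p i then 1 else 0) := by
  apply finsum_eq_sum_of_support_subset
  intro i hi
  rw [Function.mem_support] at hi
  by_contra h'
  apply hi
  rw [if_neg (fun h'' => h' (h i h'')), mul_zero]

/-- A locally finite sum of indicators of intervals without jumps is almost everywhere constant. -/
lemma oneD {ι : Type*} [Countable ι] (c : ι → ℤ) (b T : ι → ℝ)
    (hfin : ∀ R : ℝ, {i | ∃ t, |t| ≤ R ∧ b i ≤ t ∧ t ≤ T i}.Finite)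
    (hJ : ∀ t, ∑ᶠ i, c i * ((if b i ≤ T i ∧ t = T i then 1 else 0) -
      (if b i ≤ T i ∧ t = b i then 1 else 0)) = 0) :
    ∃ κ : ℤ, ∀ᵐ t : ℝ, ∑ᶠ i, c i * (if b i ≤ t ∧ t ≤ T i then 1 else 0) = κ := by
  set F : ℝ → ℤ := fun t => ∑ᶠ i, c i * (if b i ≤ t ∧ t < T i then 1 else 0) with hF
  set Gm : ℝ → ℤ := fun t => ∑ᶠ i, c i * (if b i < t ∧ t ≤ T i then 1 else 0) with hGm
  have hFG : ∀ t, F t = Gm t := by
    intro t
    set S := (hfin |t|).toFinset with hS
    have hmem : ∀ i, (b i ≤ t ∧ t ≤ T i) → i ∈ S := fun i hi => by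
      rw [hS, Set.Finite.mem_toFinset]
      exact ⟨t, le_rfl, hi.1, hi.2⟩
    have h1 : F t = ∑ i ∈ S, c i * (if b i ≤ t ∧ t < T i then 1 else 0) :=
      finsum_supp c (fun i => b i ≤ t ∧ t < T i) S fun i hi => hmem i ⟨hi.1, hi.2.le⟩
    have h2 : Gm t = ∑ i ∈ S, c i * (if b i < t ∧ t ≤ T i then 1 else 0) :=
      finsum_supp c (fun i => b i < t ∧ t ≤ T i) S fun i hi => hmem i ⟨hi.1.le, hi.2⟩
    have h3 : ∑ᶠ i, c i * ((if b i ≤ T i ∧ t = T i then 1 else 0) -
      (if b i ≤ T i ∧ t = b i then 1 else 0)) = ∑ i ∈ S, c i *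
        ((if b i ≤ T i ∧ t = T i then 1 else 0) - (if b i ≤ T i ∧ t = b i then 1 else 0)) := by
      apply finsum_eq_sum_of_support_subset
      intro i hi
      rw [Function.mem_support] at hi
      by_contra h'
      apply hi
      have h4 : ¬ (b i ≤ T i ∧ t = T i) := fun h => h' (hmem i (by
        rw [h.2]; exact ⟨h.1, le_rfl⟩))
      have h5 : ¬ (b i ≤ T i ∧ t = b i) := fun h => h' (hmem i (by
        rw [h.2]; exact ⟨le_rfl, h.1⟩))
      rw [if_neg h4, if_neg h5, sub_zero, mul_zero]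
    have h4 : F t - Gm t = -∑ᶠ i, c i * ((if b i ≤ T i ∧ t = T i then 1 else 0) -
      (if b i ≤ T i ∧ t = b i then 1 else 0)) := by
      rw [h1, h2, h3, ← Finset.sum_sub_distrib, ← Finset.sum_neg_distrib]
      refine Finset.sum_congr rfl fun i _ => ?_
      rw [← mul_sub, ite_id]
      ring
    rw [hJ t, neg_zero] at h4
    linarith
  have hloc : ∀ t₀, ∀ᶠ t in 𝓝 t₀, F t = F t₀ := by
    intro t₀
    set S := (hfin (|t₀| + 1)).toFinset with hS
    have hmem : ∀ t, |t| ≤ |t₀| + 1 → ∀ i, (b i ≤ t ∧ t ≤ T i) → i ∈ S := fun t ht i hi => by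
      rw [hS, Set.Finite.mem_toFinset]
      exact ⟨t, ht, hi.1, hi.2⟩
    have hnear : ∀ᶠ t in 𝓝 t₀, |t| ≤ |t₀| + 1 := by
      have h1 : ContinuousAt (fun t : ℝ => |t|) t₀ := continuous_abs.continuousAt
      exact (Filter.Tendsto.eventually_lt_const (show |t₀| < |t₀| + 1 by linarith) h1).mono
        fun t ht => ht.le
    have h0 : |t₀| ≤ |t₀| + 1 := by linarith
    have hF1 : ∀ t, |t| ≤ |t₀| + 1 → F t =
        ∑ i ∈ S, c i * (if b i ≤ t ∧ t < T i then 1 else 0) := fun t ht =>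
      finsum_supp c (fun i => b i ≤ t ∧ t < T i) S fun i hi => hmem t ht i ⟨hi.1, hi.2.le⟩
    have hG1 : Gm t₀ = ∑ i ∈ S, c i * (if b i < t₀ ∧ t₀ ≤ T i then 1 else 0) :=
      finsum_supp c (fun i => b i < t₀ ∧ t₀ ≤ T i) S fun i hi => hmem t₀ h0 i ⟨hi.1.le, hi.2⟩
    rw [← nhdsLT_sup_nhdsGE, eventually_sup]
    constructor
    · have h1 : ∀ i ∈ S, ∀ᶠ t in 𝓝[<] t₀, ((b i ≤ t ∧ t < T i) ↔ (b i < t₀ ∧ t₀ ≤ T i)) := by
        intro i _
        have h2 : ∀ᶠ t in 𝓝[<] t₀, (b i ≤ t ↔ b i < t₀) := by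
          rcases lt_or_ge (b i) t₀ with h | h
          · have h3 : ∀ᶠ t in 𝓝[<] t₀, b i < t :=
              (eventually_gt_nhds h).filter_mono nhdsWithin_le_nhds
            filter_upwards [h3] with t ht
            exact ⟨fun _ => h, fun _ => ht.le⟩
          · filter_upwards [self_mem_nhdsWithin] with t ht
            have ht' : t < t₀ := ht
            exact ⟨fun h' => absurd h' (by linarith), fun h' => absurd h' (by linarith)⟩
        have h3 : ∀ᶠ t in 𝓝[<] t₀, (t < T i ↔ t₀ ≤ T i) := by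
          rcases lt_or_ge (T i) t₀ with h | h
          · have h3 : ∀ᶠ t in 𝓝[<] t₀, T i < t :=
              (eventually_gt_nhds h).filter_mono nhdsWithin_le_nhds
            filter_upwards [h3] with t ht
            exact ⟨fun h' => absurd h' (by linarith), fun h' => absurd h' (by linarith)⟩
          · filter_upwards [self_mem_nhdsWithin] with t ht
            have ht' : t < t₀ := ht
            exact ⟨fun _ => h, fun _ => by linarith⟩
        filter_upwards [h2, h3] with t h4 h5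
        rw [h4, h5]
      have h2 : ∀ᶠ t in 𝓝[<] t₀, ∀ i ∈ S, ((b i ≤ t ∧ t < T i) ↔ (b i < t₀ ∧ t₀ ≤ T i)) :=
        (Finset.eventually_all S).2 h1
      filter_upwards [h2, hnear.filter_mono nhdsWithin_le_nhds] with t h3 h4
      rw [hF1 t h4, hFG t₀, hG1]
      refine Finset.sum_congr rfl fun i hi => ?_
      rw [if_congr (h3 i hi) rfl rfl]
    · have h1 : ∀ i ∈ S, ∀ᶠ t in 𝓝[≥] t₀, ((b i ≤ t ∧ t < T i) ↔ (b i ≤ t₀ ∧ t₀ < T i)) := by
        intro i _
        have h2 : ∀ᶠ t in 𝓝[≥] t₀, (b i ≤ t ↔ b i ≤ t₀) := by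
          rcases lt_or_ge t₀ (b i) with h | h
          · have h3 : ∀ᶠ t in 𝓝[≥] t₀, t < b i :=
              (eventually_lt_nhds h).filter_mono nhdsWithin_le_nhds
            filter_upwards [h3] with t ht
            exact ⟨fun h' => absurd h' (by linarith), fun h' => absurd h' (by linarith)⟩
          · filter_upwards [self_mem_nhdsWithin] with t ht
            have ht' : t₀ ≤ t := ht
            exact ⟨fun _ => h, fun _ => h.trans ht'⟩
        have h3 : ∀ᶠ t in 𝓝[≥] t₀, (t < T i ↔ t₀ < T i) := by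
          rcases lt_or_ge t₀ (T i) with h | h
          · have h3 : ∀ᶠ t in 𝓝[≥] t₀, t < T i :=
              (eventually_lt_nhds h).filter_mono nhdsWithin_le_nhds
            filter_upwards [h3] with t ht
            exact ⟨fun _ => h, fun _ => ht⟩
          · filter_upwards [self_mem_nhdsWithin] with t ht
            have ht' : t₀ ≤ t := ht
            exact ⟨fun h' => absurd h' (by linarith), fun h' => absurd h' (by linarith)⟩
        filter_upwards [h2, h3] with t h4 h5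
        rw [h4, h5]
      have h2 : ∀ᶠ t in 𝓝[≥] t₀, ∀ i ∈ S, ((b i ≤ t ∧ t < T i) ↔ (b i ≤ t₀ ∧ t₀ < T i)) :=
        (Finset.eventually_all S).2 h1
      filter_upwards [h2, hnear.filter_mono nhdsWithin_le_nhds] with t h3 h4
      rw [hF1 t h4, hF1 t₀ h0]
      refine Finset.sum_congr rfl fun i hi => ?_
      rw [if_congr (h3 i hi) rfl rfl]
  have hconst : ∀ t, F t = F 0 := by
    have h1 : IsLocallyConstant F := (IsLocallyConstant.iff_eventually_eq F).2 hloc
    intro t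
    exact h1.apply_eq_of_isPreconnected isPreconnected_univ (Set.mem_univ _) (Set.mem_univ _)
  refine ⟨F 0, ?_⟩
  have hcount : (Set.range T).Countable := Set.countable_range T
  have hae : ∀ᵐ t : ℝ, t ∉ Set.range T := hcount.ae_notMem _
  filter_upwards [hae] with t ht
  rw [← hconst t, hF]
  refine finsum_congr fun i => ?_
  have h1 : (b i ≤ t ∧ t ≤ T i) ↔ (b i ≤ t ∧ t < T i) := by
    refine and_congr_right fun _ => ⟨fun h => lt_of_le_of_ne h fun h' => ht ⟨i, h'.symm⟩,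
      fun h => h.le⟩
  rw [if_congr h1 rfl rfl]


/-! ### Faces and supporting hyperplanes -/

variable {s : ℕ}

/-- The linear functional. -/
noncomputable def linL (σ : ℝ) (α : Fin s → ℝ) : ((Fin s → ℝ) × ℝ) →ₗ[ℝ] ℝ :=
  σ • (LinearMap.snd ℝ (Fin s → ℝ) ℝ -
    ∑ i, α i • ((LinearMap.proj i : (Fin s → ℝ) →ₗ[ℝ] ℝ) ∘ₗ LinearMap.fst ℝ (Fin s → ℝ) ℝ))

lemma linL_apply (σ : ℝ) (α : Fin s → ℝ) (p : (Fin s → ℝ) × ℝ) :
    linL σ α p = σ * (p.2 - ∑ i, α i * p.1 i) := by
  simp [linL]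

open Classical in
/-- The face of the maxima. -/
noncomputable def face (σ : ℝ) (α : Fin s → ℝ) (Q : Finset ((Fin s → ℝ) × ℝ)) :
    Finset ((Fin s → ℝ) × ℝ) :=
  Q.filter fun p => ∀ q ∈ Q, linL σ α q ≤ linL σ α p

lemma mem_face {σ : ℝ} {α : Fin s → ℝ} {Q : Finset ((Fin s → ℝ) × ℝ)} {p : (Fin s → ℝ) × ℝ} :
    p ∈ face σ α Q ↔ p ∈ Q ∧ ∀ q ∈ Q, linL σ α q ≤ linL σ α p := by
  unfold face
  rw [Finset.mem_filter]

lemma topf_eq (α : Fin s → ℝ) (Q : Finset ((Fin s → ℝ) × ℝ)) : topf α Q = face 1 α Q := by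
  ext p
  rw [mem_face, topf, Finset.mem_filter]
  simp only [linL_apply, one_mul]

lemma botf_eq (α : Fin s → ℝ) (Q : Finset ((Fin s → ℝ) × ℝ)) : botf α Q = face (-1) α Q := by
  ext p
  rw [mem_face, botf, Finset.mem_filter]
  simp only [linL_apply, neg_mul, one_mul, neg_le_neg_iff]

lemma face_subset (σ : ℝ) (α : Fin s → ℝ) (Q : Finset ((Fin s → ℝ) × ℝ)) : face σ α Q ⊆ Q :=
  fun _ h => (mem_face.1 h).1

lemma mem_conv_face {σ : ℝ} {α : Fin s → ℝ} {Q : Finset ((Fin s → ℝ) × ℝ)}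
    {p : (Fin s → ℝ) × ℝ} (hp : p ∈ convexHull ℝ (Q : Set ((Fin s → ℝ) × ℝ)))
    (h : ∀ q ∈ Q, linL σ α q ≤ linL σ α p) :
    p ∈ convexHull ℝ (face σ α Q : Set ((Fin s → ℝ) × ℝ)) := by
  obtain ⟨w, hw0, hw1, hwp⟩ := Finset.mem_convexHull'.1 hp
  have h1 : ∑ q ∈ Q, w q * (linL σ α p - linL σ α q) = 0 := by
    simp only [mul_sub]
    rw [Finset.sum_sub_distrib, ← Finset.sum_mul, hw1, one_mul]
    have h2 : linL σ α p = ∑ q ∈ Q, w q * linL σ α q := by
      rw [← hwp, map_sum]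
      simp
    rw [← h2, sub_self]
  have h2 : ∀ q ∈ Q, w q * (linL σ α p - linL σ α q) = 0 :=
    (Finset.sum_eq_zero_iff_of_nonneg fun q hq => mul_nonneg (hw0 q hq)
      (sub_nonneg.2 (h q hq))).1 h1
  have h3 : ∀ q ∈ Q, w q ≠ 0 → q ∈ face σ α Q := by
    intro q hq hwq
    rw [mem_face]
    refine ⟨hq, fun q' hq' => ?_⟩
    have h4 := (mul_eq_zero.1 (h2 q hq)).resolve_left hwq
    rw [sub_eq_zero] at h4
    rw [← h4]
    exact h q' hq'
  rw [Finset.mem_convexHull']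
  refine ⟨w, fun q hq => hw0 q (face_subset _ _ _ hq), ?_, ?_⟩
  · rw [← hw1]
    refine Finset.sum_subset (face_subset _ _ _) fun q hq hq' => ?_
    by_contra h4
    exact hq' (h3 q hq h4)
  · rw [← hwp]
    refine Finset.sum_subset (face_subset _ _ _) fun q hq hq' => ?_
    have h4 : w q = 0 := by
      by_contra h4
      exact hq' (h3 q hq h4)
    rw [h4, zero_smul]

lemma le_of_mem_conv_face {σ : ℝ} {α : Fin s → ℝ} {Q : Finset ((Fin s → ℝ) × ℝ)}
    {p : (Fin s → ℝ) × ℝ} (hp : p ∈ convexHull ℝ (face σ α Q : Set ((Fin s → ℝ) × ℝ))) :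
    (∃ q ∈ Q, linL σ α p = linL σ α q) ∧
    ∀ p' ∈ convexHull ℝ (Q : Set ((Fin s → ℝ) × ℝ)), linL σ α p' ≤ linL σ α p := by
  obtain ⟨q₀, hq₀⟩ : (face σ α Q : Set ((Fin s → ℝ) × ℝ)).Nonempty := by
    rw [← convexHull_nonempty_iff (𝕜 := ℝ)]
    exact ⟨p, hp⟩
  have hq₀' := mem_face.1 (Finset.mem_coe.1 hq₀)
  have h1 : convexHull ℝ (face σ α Q : Set ((Fin s → ℝ) × ℝ)) ⊆
      {p | linL σ α p = linL σ α q₀} := by
    apply convexHull_min
    · intro q hq
      have hq' := mem_face.1 (Finset.mem_coe.1 hq)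
      exact le_antisymm (hq₀'.2 q hq'.1) (hq'.2 q₀ hq₀'.1)
    · exact convex_hyperplane (linL σ α).isLinear _
  have h2 : convexHull ℝ (Q : Set ((Fin s → ℝ) × ℝ)) ⊆ {p | linL σ α p ≤ linL σ α q₀} := by
    apply convexHull_min
    · intro q hq
      exact hq₀'.2 q (Finset.mem_coe.1 hq)
    · exact convex_halfSpace_le (linL σ α).isLinear _
  have h3 : linL σ α p = linL σ α q₀ := h1 hp
  refine ⟨⟨q₀, hq₀'.1, h3⟩, fun p' hp' => ?_⟩
  rw [h3]
  exact h2 hp'

/-- Supporting hyperplanes above the interior of the projection. -/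
lemma support {σ : ℝ} (hσ : σ = 1 ∨ σ = -1) (Q : Finset ((Fin s → ℝ) × ℝ)) {y : Fin s → ℝ}
    (hy : y ∈ interior (Prod.fst '' convexHull ℝ (Q : Set ((Fin s → ℝ) × ℝ)))) {t : ℝ}
    (ht : (y, t) ∈ convexHull ℝ (Q : Set ((Fin s → ℝ) × ℝ)))
    (hmax : ∀ t', (y, t') ∈ convexHull ℝ (Q : Set ((Fin s → ℝ) × ℝ)) → σ * t' ≤ σ * t) :
    ∃ α : Fin s → ℝ, (y, t) ∈ convexHull ℝ (face σ α Q : Set ((Fin s → ℝ) × ℝ)) := by
  have hσ2 : σ * σ = 1 := by rcases hσ with rfl | rfl <;> norm_num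
  set K := convexHull ℝ (Q : Set ((Fin s → ℝ) × ℝ)) with hK
  have hKc : IsCompact K := Q.finite_toSet.isCompact_convexHull (𝕜 := ℝ)
  have hKconv : Convex ℝ K := convex_convexHull _ _
  obtain ⟨R, hR⟩ : ∃ R : ℝ, ∀ p ∈ K, |p.2| ≤ R := by
    obtain ⟨R, hR⟩ := hKc.isBounded.exists_norm_le
    exact ⟨R, fun p hp => (norm_snd_le p).trans (hR p hp)⟩
  have hσt : ∀ p ∈ K, -R ≤ σ * p.2 := by
    intro p hp
    have h1 := abs_le.1 (hR p hp)
    rcases hσ with rfl | rfl
    · linarith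
    · linarith
  set C : Set ((Fin s → ℝ) × ℝ) := {p | ∃ u : ℝ, 0 ≤ u ∧ (p.1, p.2 + σ * u) ∈ K} with hC
  have hCconv : Convex ℝ C := by
    rintro p ⟨u, hu, hp⟩ q ⟨v, hv, hq⟩ a b ha hb hab
    refine ⟨a * u + b * v, by positivity, ?_⟩
    have h1 := hKconv hp hq ha hb hab
    convert h1 using 1
    ext
    · simp
    · simp only [Prod.snd_add, Prod.smul_snd, smul_eq_mul]
      ring
  have hKC : K ⊆ C := fun p hp => ⟨0, le_rfl, by simpa using hp⟩
  have hz : (y, -σ * (R + 1)) ∈ interior C := by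
    rw [mem_interior_iff_mem_nhds]
    have h1 : interior (Prod.fst '' K) ×ˢ {t' : ℝ | σ * t' < -R} ∈ 𝓝 (y, -σ * (R + 1)) := by
      apply prod_mem_nhds
      · exact isOpen_interior.mem_nhds hy
      · apply IsOpen.mem_nhds
        · exact isOpen_lt (by fun_prop) continuous_const
        · change σ * (-σ * (R + 1)) < -R
          have : σ * (-σ * (R + 1)) = -(σ * σ) * (R + 1) := by ring
          rw [this, hσ2]
          linarith
    refine Filter.mem_of_superset h1 ?_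
    rintro ⟨y', t'⟩ ⟨h2, h3⟩
    obtain ⟨⟨y'', t''⟩, h4, rfl⟩ := interior_subset h2
    have h3' : σ * t' < -R := h3
    have h5 := hσt _ h4
    refine ⟨σ * (t'' - t'), ?_, ?_⟩
    · simp only at h5
      linarith [mul_sub σ t'' t']
    · have h6 : t' + σ * (σ * (t'' - t')) = t'' := by
        rw [← mul_assoc, hσ2]
        ring
      simp only [h6]
      exact h4
  have hp₀ : (y, t) ∉ interior C := by
    intro h
    have h1 : Tendsto (fun ε : ℝ => (y, t + σ * ε)) (𝓝 0) (𝓝 (y, t)) := by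
      have h2 : Continuous (fun ε : ℝ => (y, t + σ * ε)) := by fun_prop
      have h3 := h2.tendsto 0
      simpa using h3
    have h2 := h1.eventually (mem_interior_iff_mem_nhds.1 h)
    have h3 : ∀ᶠ ε : ℝ in 𝓝[>] 0, (y, t + σ * ε) ∈ C := h2.filter_mono nhdsWithin_le_nhds
    obtain ⟨ε, h4, h5⟩ := (h3.and self_mem_nhdsWithin).exists
    obtain ⟨u, hu, h6⟩ := h4
    have h7 := hmax _ h6
    have h8 : σ * (t + σ * ε + σ * u) = σ * t + (σ * σ) * ε + (σ * σ) * u := by ring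
    simp only at h7
    rw [h8, hσ2] at h7
    have h9 : (0 : ℝ) < ε := h5
    linarith
  obtain ⟨f, hf⟩ := geometric_hahn_banach_open_point hCconv.interior isOpen_interior hp₀
  have hfK : ∀ p ∈ K, f p ≤ f (y, t) := by
    intro p hp
    have h1 : p ∈ closure (interior C) := by
      rw [hCconv.closure_interior_eq_closure_of_nonempty_interior ⟨_, hz⟩]
      exact subset_closure (hKC hp)
    have h2 : IsClosed {p | f p ≤ f (y, t)} := isClosed_le f.continuous continuous_const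
    exact closure_minimal (fun a ha => (hf a ha).le) h2 h1
  set lam : ℝ := f (0, 1) with hlam
  have hfp : ∀ p : (Fin s → ℝ) × ℝ, f p = f (p.1, 0) + p.2 * lam := by
    intro p
    have h1 : p = (p.1, 0) + p.2 • ((0 : Fin s → ℝ), (1 : ℝ)) := by
      ext <;> simp
    conv_lhs => rw [h1]
    rw [map_add, map_smul, smul_eq_mul]
  have hfy : ∀ y' : Fin s → ℝ, f (y', 0) = ∑ j, y' j * f (Pi.single j 1, 0) := by
    intro y'
    have h1 := LinearMap.pi_apply_eq_sum_univ
      ((f : ((Fin s → ℝ) × ℝ) →ₗ[ℝ] ℝ) ∘ₗ LinearMap.inl ℝ (Fin s → ℝ) ℝ) y'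
    have h2 : ∀ i : Fin s, (fun j => if i = j then (1 : ℝ) else 0) = Pi.single i 1 := by
      intro i
      funext j
      simp [Pi.single_apply, eq_comm]
    simpa [h2] using h1
  have hσlam : 0 < σ * lam := by
    have h1 := hf _ hz
    rw [hfp, hfp (y, t)] at h1
    simp only at h1
    have h2 : 0 < (t + σ * (R + 1)) * lam := by linarith
    have h3 : t + σ * (R + 1) = σ * (σ * t + (R + 1)) := by
      have h4 : σ * (σ * t + (R + 1)) = (σ * σ) * t + σ * (R + 1) := by ring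
      rw [h4, hσ2, one_mul]
    rw [h3] at h2
    have h4 : 0 < σ * t + (R + 1) := by
      have := hσt _ ht
      simp only at this
      linarith
    have h5 : σ * (σ * t + (R + 1)) * lam = (σ * lam) * (σ * t + (R + 1)) := by ring
    rw [h5] at h2
    exact (pos_iff_pos_of_mul_pos h2).2 h4
  have hlam0 : lam ≠ 0 := by
    rintro h
    rw [h, mul_zero] at hσlam
    exact lt_irrefl _ hσlam
  refine ⟨fun j => -f (Pi.single j 1, 0) / lam, mem_conv_face ht fun q hq => ?_⟩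
  have hlin : ∀ p : (Fin s → ℝ) × ℝ,
      linL σ (fun j => -f (Pi.single j 1, 0) / lam) p = (σ / lam) * f p := by
    intro p
    rw [linL_apply, hfp p, hfy p.1]
    have h1 : ∑ i, -f (Pi.single i 1, 0) / lam * p.1 i =
        -(∑ j, p.1 j * f (Pi.single j 1, 0)) / lam := by
      rw [← Finset.sum_neg_distrib, Finset.sum_div]
      exact Finset.sum_congr rfl fun i _ => by ring
    rw [h1]
    field_simp
    ring
  rw [hlin, hlin]
  have h1 : 0 < σ / lam := by
    have h2 : σ / lam = (σ * lam) / (lam * lam) := by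
      field_simp
    rw [h2]
    exact div_pos hσlam (mul_self_pos.2 hlam0)
  exact mul_le_mul_of_nonneg_left (hfK q (subset_convexHull _ _ hq)) h1.le


/-! ### Null sets and countability -/

/-- The functionals of facets. -/
def AA (σ : ℝ) (Q : Finset ((Fin s → ℝ) × ℝ)) : Set (Fin s → ℝ) :=
  {α | affineSpan ℝ (Prod.fst '' (face σ α Q : Set ((Fin s → ℝ) × ℝ))) = ⊤}

/-- The linear functional of a vector. -/
noncomputable def dotL (α : Fin s → ℝ) : (Fin s → ℝ) →ₗ[ℝ] ℝ :=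
  ∑ i, α i • (LinearMap.proj i : (Fin s → ℝ) →ₗ[ℝ] ℝ)

lemma dotL_apply (α y : Fin s → ℝ) : dotL α y = ∑ i, α i * y i := by
  simp [dotL]

lemma dotL_eq_zero {α : Fin s → ℝ} (h : ∀ y, dotL α y = 0) : α = 0 := by
  funext i
  have h1 := h (Pi.single i 1)
  rw [dotL_apply] at h1
  simpa [Pi.single_apply] using h1

lemma AA_injOn {σ : ℝ} (hσ : σ ≠ 0) (Q : Finset ((Fin s → ℝ) × ℝ)) :
    Set.InjOn (fun α => face σ α Q) (AA σ Q) := by
  intro α hα α' _ h
  have h' : face σ α Q = face σ α' Q := h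
  have hne : (face σ α Q).Nonempty := by
    rw [Finset.nonempty_iff_ne_empty]
    intro h1
    have h2 : affineSpan ℝ (Prod.fst '' (face σ α Q : Set ((Fin s → ℝ) × ℝ))) = ⊤ := hα
    rw [h1, Finset.coe_empty, Set.image_empty, AffineSubspace.span_empty] at h2
    exact AffineSubspace.bot_ne_top ℝ (Fin s → ℝ) (Fin s → ℝ) h2
  obtain ⟨q₀, hq₀⟩ := hne
  have h1 : ∀ q ∈ face σ α Q, dotL (α - α') q.1 = dotL (α - α') q₀.1 := by
    intro q hq
    have h2 : linL σ α q = linL σ α q₀ :=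
      le_antisymm ((mem_face.1 hq₀).2 q (mem_face.1 hq).1) ((mem_face.1 hq).2 q₀ (mem_face.1 hq₀).1)
    have h3 : linL σ α' q = linL σ α' q₀ := by
      rw [h'] at hq hq₀
      exact le_antisymm ((mem_face.1 hq₀).2 q (mem_face.1 hq).1)
        ((mem_face.1 hq).2 q₀ (mem_face.1 hq₀).1)
    rw [linL_apply, linL_apply] at h2 h3
    have h4 := mul_left_cancel₀ hσ h2
    have h5 := mul_left_cancel₀ hσ h3
    rw [dotL_apply, dotL_apply]
    simp only [Pi.sub_apply, sub_mul, Finset.sum_sub_distrib]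
    linarith
  have h2 : (⊤ : AffineSubspace ℝ (Fin s → ℝ)) ≤
      AffineSubspace.mk' q₀.1 (LinearMap.ker (dotL (α - α'))) := by
    have h3 : affineSpan ℝ (Prod.fst '' (face σ α Q : Set ((Fin s → ℝ) × ℝ))) = ⊤ := hα
    rw [← h3, affineSpan_le]
    rintro _ ⟨q, hq, rfl⟩
    rw [SetLike.mem_coe, AffineSubspace.mem_mk', LinearMap.mem_ker, vsub_eq_sub, map_sub,
      h1 q (Finset.mem_coe.1 hq), sub_self]
  have h3 : α - α' = 0 := by
    apply dotL_eq_zero
    intro y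
    have h4 : q₀.1 + y ∈ AffineSubspace.mk' q₀.1 (LinearMap.ker (dotL (α - α'))) :=
      h2 (AffineSubspace.mem_top ℝ (Fin s → ℝ) _)
    rw [AffineSubspace.mem_mk', LinearMap.mem_ker, vsub_eq_sub, add_sub_cancel_left] at h4
    exact h4
  exact sub_eq_zero.1 h3

lemma AA_countable {σ : ℝ} (hσ : σ ≠ 0) (Q : Finset ((Fin s → ℝ) × ℝ)) : (AA σ Q).Countable := by
  apply Set.Finite.countable
  apply Set.Finite.of_finite_image _ (AA_injOn hσ Q)
  apply (Finset.finite_toSet Q.powerset).subset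
  rintro _ ⟨α, _, rfl⟩
  rw [Finset.mem_coe, Finset.mem_powerset]
  exact face_subset _ _ _

/-- The points above facets, for almost every point of the base. -/
lemma ae_facet (Q : Finset ((Fin s → ℝ) × ℝ)) : ∀ᵐ y : Fin s → ℝ, ∀ σ : ℝ, (σ = 1 ∨ σ = -1) →
    ∀ t, (y, t) ∈ convexHull ℝ (Q : Set ((Fin s → ℝ) × ℝ)) →
    (∀ t', (y, t') ∈ convexHull ℝ (Q : Set ((Fin s → ℝ) × ℝ)) → σ * t' ≤ σ * t) →
    ∃ α ∈ AA σ Q, (y, t) ∈ convexHull ℝ (face σ α Q : Set ((Fin s → ℝ) × ℝ)) := by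
  have h1 : ∀ᵐ y : Fin s → ℝ, y ∉ frontier (Prod.fst '' convexHull ℝ
      (Q : Set ((Fin s → ℝ) × ℝ))) := by
    have h2 : Convex ℝ (Prod.fst '' convexHull ℝ (Q : Set ((Fin s → ℝ) × ℝ))) :=
      (convex_convexHull ℝ _).linear_image (LinearMap.fst ℝ (Fin s → ℝ) ℝ)
    exact measure_eq_zero_iff_ae_notMem.1 (h2.addHaar_frontier volume)
  have h2 : ∀ᵐ y : Fin s → ℝ, ∀ Q' ∈ Q.powerset,
      affineSpan ℝ (Prod.fst '' (Q' : Set ((Fin s → ℝ) × ℝ))) ≠ ⊤ →
      y ∉ affineSpan ℝ (Prod.fst '' (Q' : Set ((Fin s → ℝ) × ℝ))) := by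
    refine (Finset.eventually_all Q.powerset).2 fun Q' _ => ?_
    by_cases h3 : affineSpan ℝ (Prod.fst '' (Q' : Set ((Fin s → ℝ) × ℝ))) = ⊤
    · exact Filter.Eventually.of_forall fun y h4 => absurd h3 h4
    · filter_upwards [measure_eq_zero_iff_ae_notMem.1
        (Measure.addHaar_affineSubspace (volume : Measure (Fin s → ℝ)) _ h3)] with y hy _ using hy
  filter_upwards [h1, h2] with y hy1 hy2 σ hσ t ht hmax
  have hyD : y ∈ Prod.fst '' convexHull ℝ (Q : Set ((Fin s → ℝ) × ℝ)) := ⟨(y, t), ht, rfl⟩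
  have hyI : y ∈ interior (Prod.fst '' convexHull ℝ (Q : Set ((Fin s → ℝ) × ℝ))) := by
    by_contra h3
    exact hy1 ⟨subset_closure hyD, h3⟩
  obtain ⟨α, hα⟩ := support hσ Q hyI ht hmax
  refine ⟨α, ?_, hα⟩
  by_contra h3
  apply hy2 (face σ α Q) (Finset.mem_powerset.2 (face_subset _ _ _)) h3
  have h4 : y ∈ Prod.fst '' convexHull ℝ (face σ α Q : Set ((Fin s → ℝ) × ℝ)) :=
    ⟨(y, t), hα, rfl⟩
  have h5 : Prod.fst '' convexHull ℝ (face σ α Q : Set ((Fin s → ℝ) × ℝ)) =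
      convexHull ℝ (Prod.fst '' (face σ α Q : Set ((Fin s → ℝ) × ℝ))) :=
    (LinearMap.fst ℝ (Fin s → ℝ) ℝ).image_convexHull _
  rw [h5] at h4
  exact convexHull_subset_affineSpan _ h4

/-- Different hyperplanes. -/
lemma ae_ne {z z' : (Fin s → ℝ) × ℝ} (h : z ≠ z') :
    ∀ᵐ y : Fin s → ℝ, z.2 + ∑ j, z.1 j * y j ≠ z'.2 + ∑ j, z'.1 j * y j := by
  by_cases h1 : z.1 = z'.1
  · refine Filter.Eventually.of_forall fun y h2 => h (Prod.ext h1 ?_)
    rw [h1] at h2
    linarith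
  · by_cases h2 : ∃ y₀ : Fin s → ℝ, z.2 + ∑ j, z.1 j * y₀ j = z'.2 + ∑ j, z'.1 j * y₀ j
    · obtain ⟨y₀, hy₀⟩ := h2
      have h3 : (AffineSubspace.mk' y₀ (LinearMap.ker (dotL (z.1 - z'.1)))) ≠ ⊤ := by
        intro h4
        apply h1
        rw [← sub_eq_zero]
        apply dotL_eq_zero
        intro y
        have h5 : y₀ + y ∈ AffineSubspace.mk' y₀ (LinearMap.ker (dotL (z.1 - z'.1))) := by
          rw [h4]
          exact AffineSubspace.mem_top ℝ (Fin s → ℝ) _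
        rw [AffineSubspace.mem_mk', LinearMap.mem_ker, vsub_eq_sub, add_sub_cancel_left] at h5
        exact h5
      have h4 := measure_eq_zero_iff_ae_notMem.1
        (Measure.addHaar_affineSubspace (volume : Measure (Fin s → ℝ)) _ h3)
      filter_upwards [h4] with y hy hy'
      apply hy
      rw [SetLike.mem_coe, AffineSubspace.mem_mk', LinearMap.mem_ker, vsub_eq_sub, map_sub,
        dotL_apply, dotL_apply]
      simp only [Pi.sub_apply, sub_mul, Finset.sum_sub_distrib]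
      linarith
    · push Not at h2
      exact Filter.Eventually.of_forall h2

/-- The slices are intervals. -/
lemma slice (Q : Finset ((Fin s → ℝ) × ℝ)) (y : Fin s → ℝ) : ∃ b T : ℝ, ∀ t,
    (y, t) ∈ convexHull ℝ (Q : Set ((Fin s → ℝ) × ℝ)) ↔ b ≤ t ∧ t ≤ T := by
  set K := convexHull ℝ (Q : Set ((Fin s → ℝ) × ℝ)) with hK
  have hKc : IsCompact K := Q.finite_toSet.isCompact_convexHull (𝕜 := ℝ)
  have hKconv : Convex ℝ K := convex_convexHull _ _
  set S : Set ℝ := {t | (y, t) ∈ K} with hS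
  by_cases hne : S.Nonempty
  · have h1 : IsCompact S := by
      have h2 : IsClosed S := hKc.isClosed.preimage (by fun_prop : Continuous fun t : ℝ => (y, t))
      have h3 : S ⊆ Prod.snd '' K := fun t ht => ⟨(y, t), ht, rfl⟩
      exact (hKc.image continuous_snd).of_isClosed_subset h2 h3
    have h2 : Convex ℝ S := by
      intro t ht t' ht' a b ha hb hab
      have h3 := hKconv ht ht' ha hb hab
      have h4 : a • (y, t) + b • (y, t') = (y, a • t + b • t') := by
        ext i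
        · simp only [Prod.smul_mk, Prod.mk_add_mk, Pi.add_apply, Pi.smul_apply, smul_eq_mul]
          rw [← add_mul, hab, one_mul]
        · simp
      rw [h4] at h3
      exact h3
    have h3 := eq_Icc_of_connected_compact ⟨hne, h2.isPreconnected⟩ h1
    refine ⟨sInf S, sSup S, fun t => ?_⟩
    change t ∈ S ↔ _
    conv_lhs => rw [h3]
    exact Set.mem_Icc
  · refine ⟨1, 0, fun t => ⟨fun h => absurd ⟨t, h⟩ hne, fun h => ?_⟩⟩
    linarith [h.1, h.2]

end J2aux

open J2aux in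
theorem J2 {s : ℕ} {ι : Type*} [Countable ι] (Q : ι → Finset ((Fin s → ℝ) × ℝ)) (c : ι → ℤ)
    (hlf : LocFin Q)
    (h : ∀ (α : Fin s → ℝ) (a : ℝ), ∀ᵐ y : Fin s → ℝ, ∑ᶠ i, c i *
      (ind (convexHull ℝ (topf α (Q i) : Set ((Fin s → ℝ) × ℝ))) (y, a + ∑ j, α j * y j) -
        ind (convexHull ℝ (botf α (Q i) : Set ((Fin s → ℝ) × ℝ))) (y, a + ∑ j, α j * y j)) = 0) :
    ∀ᵐ y : Fin s → ℝ, ∃ κ : ℤ, ∀ᵐ t : ℝ,
      ∑ᶠ i, c i * ind (convexHull ℝ (Q i : Set ((Fin s → ℝ) × ℝ))) (y, t) = κ := by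
  classical
  set Z : Set ((Fin s → ℝ) × ℝ) := ⋃ i, ⋃ q ∈ (Q i : Set ((Fin s → ℝ) × ℝ)),
    (fun α : Fin s → ℝ => ((α, q.2 - ∑ j, α j * q.1 j) : (Fin s → ℝ) × ℝ)) ''
      (AA 1 (Q i) ∪ AA (-1) (Q i)) with hZ
  have hZc : Z.Countable := by
    rw [hZ]
    refine Set.countable_iUnion fun i => ?_
    refine Set.Countable.biUnion (Finset.countable_toSet _) fun q _ => ?_
    exact ((AA_countable one_ne_zero _).union (AA_countable (by norm_num) _)).image _
  have h1 : ∀ᵐ y : Fin s → ℝ, ∀ z ∈ Z, ∑ᶠ i, c i *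
      (ind (convexHull ℝ (topf z.1 (Q i) : Set ((Fin s → ℝ) × ℝ))) (y, z.2 + ∑ j, z.1 j * y j) -
        ind (convexHull ℝ (botf z.1 (Q i) : Set ((Fin s → ℝ) × ℝ)))
          (y, z.2 + ∑ j, z.1 j * y j)) = 0 :=
    (ae_ball_iff hZc).2 fun z _ => h z.1 z.2
  have h2 : ∀ᵐ y : Fin s → ℝ, ∀ z ∈ Z, ∀ z' ∈ Z, z ≠ z' →
      z.2 + ∑ j, z.1 j * y j ≠ z'.2 + ∑ j, z'.1 j * y j := by
    rw [ae_ball_iff hZc]
    intro z _
    rw [ae_ball_iff hZc]
    intro z' _
    by_cases hzz : z = z'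
    · exact Filter.Eventually.of_forall fun y h => absurd hzz h
    · filter_upwards [ae_ne hzz] with y hy _ using hy
  have h3 : ∀ᵐ y : Fin s → ℝ, ∀ i, ∀ σ : ℝ, (σ = 1 ∨ σ = -1) →
      ∀ t, (y, t) ∈ convexHull ℝ (Q i : Set ((Fin s → ℝ) × ℝ)) →
      (∀ t', (y, t') ∈ convexHull ℝ (Q i : Set ((Fin s → ℝ) × ℝ)) → σ * t' ≤ σ * t) →
      ∃ α ∈ AA σ (Q i), (y, t) ∈ convexHull ℝ (face σ α (Q i) : Set ((Fin s → ℝ) × ℝ)) :=
    ae_all_iff.2 fun i => ae_facet (Q i)
  filter_upwards [h1, h2, h3] with y hy1 hy2 hy3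
  choose b T hbT using fun i => slice (Q i) y
  -- the level of a facet
  have hlev : ∀ i, ∀ σ : ℝ, (σ = 1 ∨ σ = -1) → ∀ α ∈ AA σ (Q i), ∀ t,
      (y, t) ∈ convexHull ℝ (face σ α (Q i) : Set ((Fin s → ℝ) × ℝ)) →
      ∃ a, (α, a) ∈ Z ∧ t = a + ∑ j, α j * y j := by
    intro i σ hσ α hα t ht
    obtain ⟨⟨q, hq, h4⟩, -⟩ := le_of_mem_conv_face ht
    have hσ0 : σ ≠ 0 := by rcases hσ with rfl | rfl <;> norm_num
    rw [linL_apply, linL_apply] at h4
    have h5 := mul_left_cancel₀ hσ0 h4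
    refine ⟨q.2 - ∑ j, α j * q.1 j, ?_, ?_⟩
    · rw [hZ]
      simp only [Set.mem_iUnion]
      refine ⟨i, q, hq, α, ?_, rfl⟩
      rcases hσ with rfl | rfl
      · exact Or.inl hα
      · exact Or.inr hα
    · simp only at h5
      linarith
  have hfin : ∀ R : ℝ, {i | ∃ t, |t| ≤ R ∧ b i ≤ t ∧ t ≤ T i}.Finite := by
    intro R
    refine (hlf (max ‖y‖ R)).subset ?_
    rintro i ⟨t, ht, ht1, ht2⟩
    refine ⟨(y, t), (hbT i t).2 ⟨ht1, ht2⟩, ?_⟩
    rw [Prod.norm_def]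
    exact max_le_max le_rfl ht
  have htopiff : ∀ i, ∀ z ∈ Z, ∀ t, t = z.2 + ∑ j, z.1 j * y j →
      ((y, t) ∈ convexHull ℝ (topf z.1 (Q i) : Set ((Fin s → ℝ) × ℝ)) ↔
        (b i ≤ T i ∧ t = T i)) := by
    intro i z hz t ht
    rw [topf_eq]
    constructor
    · intro h4
      have h5 := (hbT i t).1 (convexHull_mono (Finset.coe_subset.2 (face_subset _ _ _)) h4)
      have h6 : b i ≤ T i := h5.1.trans h5.2
      refine ⟨h6, le_antisymm h5.2 ?_⟩
      have h7 := (le_of_mem_conv_face h4).2 _ ((hbT i (T i)).2 ⟨h6, le_rfl⟩)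
      rw [linL_apply, linL_apply] at h7
      simp only at h7
      linarith
    · rintro ⟨h4, h5⟩
      have h6 : (y, t) ∈ convexHull ℝ (Q i : Set ((Fin s → ℝ) × ℝ)) :=
        (hbT i t).2 ⟨by rw [h5]; exact h4, h5.le⟩
      obtain ⟨α, hα, h7⟩ := hy3 i 1 (Or.inl rfl) t h6 (fun t' ht' => by
        have := ((hbT i t').1 ht').2
        rw [one_mul, one_mul, h5]
        exact this)
      obtain ⟨a, h8, h9⟩ := hlev i 1 (Or.inl rfl) α hα t h7
      have h10 : (α, a) = z := by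
        by_contra h11
        exact hy2 _ h8 _ hz h11 (h9.symm.trans ht)
      rw [← h10]
      exact h7
  have hbotiff : ∀ i, ∀ z ∈ Z, ∀ t, t = z.2 + ∑ j, z.1 j * y j →
      ((y, t) ∈ convexHull ℝ (botf z.1 (Q i) : Set ((Fin s → ℝ) × ℝ)) ↔
        (b i ≤ T i ∧ t = b i)) := by
    intro i z hz t ht
    rw [botf_eq]
    constructor
    · intro h4
      have h5 := (hbT i t).1 (convexHull_mono (Finset.coe_subset.2 (face_subset _ _ _)) h4)
      have h6 : b i ≤ T i := h5.1.trans h5.2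
      refine ⟨h6, le_antisymm ?_ h5.1⟩
      have h7 := (le_of_mem_conv_face h4).2 _ ((hbT i (b i)).2 ⟨le_rfl, h6⟩)
      rw [linL_apply, linL_apply] at h7
      simp only at h7
      linarith
    · rintro ⟨h4, h5⟩
      have h6 : (y, t) ∈ convexHull ℝ (Q i : Set ((Fin s → ℝ) × ℝ)) :=
        (hbT i t).2 ⟨h5.ge, by rw [h5]; exact h4⟩
      obtain ⟨α, hα, h7⟩ := hy3 i (-1) (Or.inr rfl) t h6 (fun t' ht' => by
        have := ((hbT i t').1 ht').1
        rw [h5]
        linarith)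
      obtain ⟨a, h8, h9⟩ := hlev i (-1) (Or.inr rfl) α hα t h7
      have h10 : (α, a) = z := by
        by_contra h11
        exact hy2 _ h8 _ hz h11 (h9.symm.trans ht)
      rw [← h10]
      exact h7
  have hJ : ∀ t, ∑ᶠ i, c i * ((if b i ≤ T i ∧ t = T i then 1 else 0) -
      (if b i ≤ T i ∧ t = b i then 1 else 0)) = 0 := by
    intro t
    by_cases hz : ∃ z ∈ Z, t = z.2 + ∑ j, z.1 j * y j
    · obtain ⟨z, hz, ht⟩ := hz
      refine (finsum_congr fun i => ?_).trans (hy1 z hz)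
      rw [← ht]
      unfold ind
      rw [if_congr (htopiff i z hz t ht) rfl rfl, if_congr (hbotiff i z hz t ht) rfl rfl]
    · rw [finsum_eq_zero_of_forall_eq_zero]
      intro i
      have h4 : ¬ (b i ≤ T i ∧ t = T i) := by
        rintro ⟨h4, h5⟩
        have h6 : (y, t) ∈ convexHull ℝ (Q i : Set ((Fin s → ℝ) × ℝ)) :=
          (hbT i t).2 ⟨by rw [h5]; exact h4, h5.le⟩
        obtain ⟨α, hα, h7⟩ := hy3 i 1 (Or.inl rfl) t h6 (fun t' ht' => by
          have := ((hbT i t').1 ht').2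
          rw [one_mul, one_mul, h5]
          exact this)
        obtain ⟨a, h8, h9⟩ := hlev i 1 (Or.inl rfl) α hα t h7
        exact hz ⟨_, h8, h9⟩
      have h5 : ¬ (b i ≤ T i ∧ t = b i) := by
        rintro ⟨h4, h5⟩
        have h6 : (y, t) ∈ convexHull ℝ (Q i : Set ((Fin s → ℝ) × ℝ)) :=
          (hbT i t).2 ⟨h5.ge, by rw [h5]; exact h4⟩
        obtain ⟨α, hα, h7⟩ := hy3 i (-1) (Or.inr rfl) t h6 (fun t' ht' => by
          have := ((hbT i t').1 ht').1
          rw [h5]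
          linarith)
        obtain ⟨a, h8, h9⟩ := hlev i (-1) (Or.inr rfl) α hα t h7
        exact hz ⟨_, h8, h9⟩
      rw [if_neg h4, if_neg h5, sub_zero, mul_zero]
  obtain ⟨κ, hκ⟩ := oneD c b T hfin hJ
  refine ⟨κ, ?_⟩
  filter_upwards [hκ] with t ht
  rw [← ht]
  refine finsum_congr fun i => ?_
  unfold ind
  congr 1
  exact if_congr (hbT i t) rfl rfl

end Pool.Agent.MT
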