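import Pool.Agent.H75.MT.Defs
import Pool.Agent.H62.DHJ.Sz

/-!
# Module Pattern: approximate homothetic patterns in dense separated sets (5.1 of multi_proof.md)
-/

namespace Pool.Agent.MT

open Module

variable {d : ℕ}

/-- Rounding. -/
theorem round_bound {ρ : ℝ} (hρ : 0 < ρ) (x : ℝ) : |x - ρ * (⌊x / ρ⌋ : ℝ)| ≤ ρ := by
  have h1 := Int.floor_le (x / ρ)
  have h2 := Int.lt_floor_add_one (x / ρ)
  have h3 : ρ * (⌊x / ρ⌋ : ℝ) ≤ x := by
    have := mul_le_mul_of_nonneg_left h1 hρ.le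
    rwa [mul_div_cancel₀ _ hρ.ne'] at this
  have h4 : x < ρ * (⌊x / ρ⌋ : ℝ) + ρ := by
    have := mul_lt_mul_of_pos_left h2 hρ
    rw [mul_div_cancel₀ _ hρ.ne'] at this
    linarith
  rw [abs_le]
  constructor <;> linarith

/-- Coordinates on a subspace, defined on the whole space. -/
theorem coords (V : Submodule ℝ (Sp d)) : ∃ (bb : Fin (finrank ℝ V) → Sp d)
    (co : Fin (finrank ℝ V) → (Sp d →ₗ[ℝ] ℝ)), (∀ i, bb i ∈ V) ∧
      ∀ v ∈ V, ∑ i, co i v • bb i = v := by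
  obtain ⟨p, hp⟩ := LinearMap.exists_leftInverse_of_injective V.subtype V.ker_subtype
  let b := finBasis ℝ V
  refine ⟨fun i => (b i : Sp d), fun i => (b.coord i).comp p, fun i => (b i).2, ?_⟩
  intro v hv
  have h1 : p v = ⟨v, hv⟩ := by
    have := LinearMap.congr_fun hp ⟨v, hv⟩
    simpa using this
  have h2 := b.sum_repr ⟨v, hv⟩
  have h3 := congrArg (V.subtype) h2
  simp only [map_sum, map_smul, Submodule.subtype_apply] at h3
  simpa [h1] using h3

/-- A linear functional on `Sp d` is bounded. -/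
theorem functional_bound (f : Sp d →ₗ[ℝ] ℝ) : ∃ C : ℝ, 0 < C ∧ ∀ x, |f x| ≤ C * ‖x‖ := by
  refine ⟨‖LinearMap.toContinuousLinearMap f‖ + 1, by positivity, fun x => ?_⟩
  have h := (LinearMap.toContinuousLinearMap f).le_opNorm x
  simp only [LinearMap.coe_toContinuousLinearMap', Real.norm_eq_abs] at h
  nlinarith [norm_nonneg x]

/-- The pattern lemma. -/
theorem pattern (EE : Submodule ℝ (Sp d)) (P : Finset (Sp d) → Prop) (g0 ε : ℝ) (hg0 : 0 < g0)
    (hε : 0 < ε)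
    (hW : ∀ K0 : ℝ, ∃ K : ℝ, K0 ≤ K ∧ ∃ (z : Sp d) (B : Finset (Sp d)), P B ∧
      (∀ x ∈ B, ‖x - z‖ ≤ K) ∧ (∀ x ∈ B, ∀ x' ∈ B, x' - x ∈ EE) ∧
      (∀ x ∈ B, ∀ x' ∈ B, ‖x' - x‖ < g0 → x' = x) ∧
      ε * K ^ finrank ℝ EE ≤ (B.card : ℝ))
    {n : ℕ} (γ : Fin n → Sp d) (hγ : ∀ i, γ i ∈ EE) (δ : ℝ) (hδ : 0 < δ)
    (F : Finset (Fin n → ℤ)) :
    ∃ (B : Finset (Sp d)) (τ : (Fin n → ℤ) → Sp d) (y : Sp d) (j : ℕ), P B ∧ 1 ≤ j ∧
      (∀ f ∈ F, τ f ∈ B) ∧ ∀ f ∈ F, ‖τ f - y - (j : ℝ) • ∑ i, (f i : ℝ) • γ i‖ ≤ δ := by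
  classical
  -- we may shrink δ
  wlog hδg : 2 * δ < g0 generalizing δ with H
  · obtain ⟨B, τ, y, j, h1, h2, h3, h4⟩ := H (g0 / 4) (by positivity) (by linarith)
    exact ⟨B, τ, y, j, h1, h2, h3, fun f hf => (h4 f hf).trans (by linarith)⟩
  set e := finrank ℝ EE with he
  obtain ⟨bb, co, hbb, hco⟩ := coords EE
  choose C1f hC1f0 hC1f using fun i => functional_bound (co i)
  set C1 : ℝ := 1 + ∑ i, C1f i with hC1
  have hC1pos : 0 < C1 := by
    have : 0 ≤ ∑ i, C1f i := Finset.sum_nonneg fun i _ => (hC1f0 i).le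
    linarith
  have hC1b : ∀ i v, |co i v| ≤ C1 * ‖v‖ := by
    intro i v
    refine (hC1f i v).trans (mul_le_mul_of_nonneg_right ?_ (norm_nonneg v))
    have : C1f i ≤ ∑ i, C1f i :=
      Finset.single_le_sum (f := C1f) (fun i _ => (hC1f0 i).le) (Finset.mem_univ i)
    linarith
  set C2 : ℝ := 1 + ∑ i, ‖bb i‖ with hC2
  have hC2pos : 0 < C2 := by
    have : 0 ≤ ∑ i, ‖bb i‖ := Finset.sum_nonneg fun i _ => norm_nonneg _
    linarith
  have hC2b : ∀ (r : Fin e → ℝ) (a : ℝ), 0 ≤ a → (∀ i, |r i| ≤ a) → ‖∑ i, r i • bb i‖ ≤ C2 * a := by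
    intro r a ha hr
    calc ‖∑ i, r i • bb i‖ ≤ ∑ i, ‖r i • bb i‖ := norm_sum_le _ _
      _ ≤ ∑ i, a * ‖bb i‖ := by
        refine Finset.sum_le_sum fun i _ => ?_
        rw [norm_smul, Real.norm_eq_abs]
        exact mul_le_mul_of_nonneg_right (hr i) (norm_nonneg _)
      _ = (∑ i, ‖bb i‖) * a := by rw [← Finset.mul_sum, mul_comm]
      _ ≤ C2 * a := mul_le_mul_of_nonneg_right (by linarith) ha
  set Γ : ℝ := 1 + ∑ i, ‖γ i‖ with hΓ
  have hΓpos : 0 < Γ := by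
    have : 0 ≤ ∑ i, ‖γ i‖ := Finset.sum_nonneg fun i _ => norm_nonneg _
    linarith
  have hΓb : ∀ (M : ℕ) (c : Fin n → ℤ), (∀ i, 0 ≤ c i ∧ c i < 0 + (M : ℤ)) →
      ‖∑ i, (c i : ℝ) • γ i‖ ≤ Γ * M := by
    intro M c hc
    calc ‖∑ i, (c i : ℝ) • γ i‖ ≤ ∑ i, ‖(c i : ℝ) • γ i‖ := norm_sum_le _ _
      _ ≤ ∑ i, (M : ℝ) * ‖γ i‖ := by
        refine Finset.sum_le_sum fun i _ => ?_
        rw [norm_smul, Real.norm_eq_abs]
        refine mul_le_mul_of_nonneg_right ?_ (norm_nonneg _)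
        have h1 := (hc i).1
        have h2 := (hc i).2
        have h3 : (0 : ℝ) ≤ (c i : ℝ) := by exact_mod_cast h1
        have h4 : (c i : ℝ) < M := by
          have : c i < (M : ℤ) := by simpa using h2
          exact_mod_cast this
        rw [abs_of_nonneg h3]
        exact h4.le
      _ = (∑ i, ‖γ i‖) * M := by rw [← Finset.mul_sum, mul_comm]
      _ ≤ Γ * M := mul_le_mul_of_nonneg_right (by linarith) (Nat.cast_nonneg M)
  set ρ : ℝ := δ / C2 with hρ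
  have hρ0 : 0 < ρ := by positivity
  -- density
  set C3 : ℝ := 6 * C1 / ρ + 5 with hC3
  have hC3pos : 0 < C3 := by positivity
  set α : ℝ := ε / C3 ^ e with hα
  have hα0 : 0 < α := by positivity
  obtain ⟨N0, hN0⟩ := H62DHJ.sz_box n (J := F) (fun f => (f : Fin n → ℤ)) hα0
  set M : ℕ := max N0 1 with hM
  have hM1 : 1 ≤ M := le_max_right _ _
  obtain ⟨K, hK, z, B, hPB, hBz, hBE, hBs, hBc⟩ := hW (Γ * M + 1)
  have hK1 : (1 : ℝ) ≤ K := by
    have : 0 ≤ Γ * M := by positivity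
    linarith
  have hKΓ : Γ * M ≤ K := by linarith
  have hBne : B.Nonempty := by
    rw [← Finset.card_pos]
    have : (0 : ℝ) < B.card := lt_of_lt_of_le (by positivity) hBc
    exact_mod_cast this
  obtain ⟨x0, hx0⟩ := hBne
  -- rounding of `x - x0 - γ c`
  set gc : (Fin n → ℤ) → Sp d := fun c => ∑ i, (c i : ℝ) • γ i with hgc
  have hgcE : ∀ c, gc c ∈ EE := fun c => Submodule.sum_mem _ fun i _ => Submodule.smul_mem _ _ (hγ i)
  have hgc_add : ∀ v f : Fin n → ℤ, ∀ s : ℕ, gc (v + s • f) = gc v + (s : ℝ) • gc f := by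
    intro v f s
    simp only [hgc, Pi.add_apply, Pi.smul_apply, Finset.smul_sum, smul_smul, ← Finset.sum_add_distrib,
      ← add_smul]
    refine Finset.sum_congr rfl fun i _ => ?_
    congr 1
    push_cast
    simp
  set mm : Sp d → (Fin n → ℤ) → (Fin e → ℤ) := fun x c i => ⌊co i (x - x0 - gc c) / ρ⌋ with hmm
  have hclose : ∀ x ∈ B, ∀ c, ‖x - x0 - gc c - ∑ i, (ρ * (mm x c i : ℝ)) • bb i‖ ≤ δ := by
    intro x hx c
    have hv : x - x0 - gc c ∈ EE := EE.sub_mem (hBE x0 hx0 x hx) (hgcE c)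
    have h1 := hco _ hv
    have h2 : x - x0 - gc c - ∑ i, (ρ * (mm x c i : ℝ)) • bb i =
        ∑ i, (co i (x - x0 - gc c) - ρ * (mm x c i : ℝ)) • bb i := by
      have : ∑ i, (co i (x - x0 - gc c) - ρ * (mm x c i : ℝ)) • bb i =
          ∑ i, co i (x - x0 - gc c) • bb i - ∑ i, (ρ * (mm x c i : ℝ)) • bb i := by
        rw [← Finset.sum_sub_distrib]
        exact Finset.sum_congr rfl fun i _ => sub_smul _ _ _
      rw [this, h1]
    rw [h2]
    refine (hC2b _ ρ hρ0.le fun i => round_bound hρ0 _).trans ?_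
    rw [hρ, mul_div_cancel₀ _ hC2pos.ne']
  have hinj : ∀ c, Set.InjOn (fun x => mm x c) (B : Set (Sp d)) := by
    intro c x hx x' hx' h
    have h1 := hclose x hx c
    have h2 := hclose x' hx' c
    simp only at h
    rw [h] at h1
    refine (hBs x' hx' x hx ?_)
    have h3 : x - x' = (x - x0 - gc c - ∑ i, (ρ * (mm x' c i : ℝ)) • bb i) -
        (x' - x0 - gc c - ∑ i, (ρ * (mm x' c i : ℝ)) • bb i) := by abel
    rw [h3]
    exact (norm_sub_le _ _).trans_lt (by linarith)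
  -- the boxes
  set R : ℕ := ⌈3 * C1 * K / ρ⌉₊ + 1 with hR
  set T : Finset (Fin e → ℤ) := Fintype.piFinset (fun _ => Finset.Icc (-(R : ℤ)) R) with hT
  set Bx : Finset (Fin n → ℤ) := Fintype.piFinset (fun _ => Finset.Ico (0 : ℤ) M) with hBx
  have hTcard : (T.card : ℝ) = (2 * R + 1 : ℝ) ^ e := by
    rw [hT, Fintype.card_piFinset]
    simp only [Int.card_Icc, Finset.prod_const, Finset.card_univ, Fintype.card_fin]
    have : ((R : ℤ) + 1 - -(R : ℤ)).toNat = 2 * R + 1 := by omega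
    rw [this]
    push_cast
    ring
  have hBxcard : (Bx.card : ℝ) = (M : ℝ) ^ n := by
    rw [hBx, Fintype.card_piFinset]
    simp
  have hR3 : (2 * R + 1 : ℝ) ≤ C3 * K := by
    have h1 : ((⌈3 * C1 * K / ρ⌉₊ : ℕ) : ℝ) < 3 * C1 * K / ρ + 1 := Nat.ceil_lt_add_one (by positivity)
    have h2 : (R : ℝ) ≤ 3 * C1 * K / ρ + 2 := by
      rw [hR]; push_cast; linarith
    have h3 : 6 * C1 / ρ * K = 2 * (3 * C1 * K / ρ) := by ring
    rw [hC3, add_mul, h3]
    nlinarith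
  have hTb : (T.card : ℝ) ≤ C3 ^ e * K ^ e := by
    rw [hTcard, ← mul_pow]
    exact pow_le_pow_left₀ (by positivity) hR3 _
  have hTpos : (0 : ℝ) < T.card := by
    rw [hTcard]; positivity
  have hmem : ∀ x ∈ B, ∀ c ∈ Bx, mm x c ∈ T := by
    intro x hx c hc
    rw [hT, Fintype.mem_piFinset]
    intro i
    have hc' : ∀ i, 0 ≤ c i ∧ c i < 0 + (M : ℤ) := by
      intro i
      have := Fintype.mem_piFinset.1 hc i
      rw [Finset.mem_Ico] at this
      simpa using this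
    have h1 : ‖x - x0 - gc c‖ ≤ 3 * K := by
      have h2 : ‖gc c‖ ≤ Γ * M := hΓb M c hc'
      have h3 : x - x0 - gc c = (x - z) - (x0 - z) - gc c := by abel
      have h4 := hBz x hx
      have h5 := hBz x0 hx0
      rw [h3]
      calc ‖(x - z) - (x0 - z) - gc c‖ ≤ ‖(x - z) - (x0 - z)‖ + ‖gc c‖ := norm_sub_le _ _
        _ ≤ ‖x - z‖ + ‖x0 - z‖ + ‖gc c‖ := by
          have := norm_sub_le (x - z) (x0 - z)
          linarith
        _ ≤ 3 * K := by linarith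
    have h2 : |co i (x - x0 - gc c)| ≤ 3 * C1 * K := by
      refine (hC1b i _).trans ?_
      nlinarith
    have h3 : |co i (x - x0 - gc c) / ρ| ≤ 3 * C1 * K / ρ := by
      rw [abs_div, abs_of_pos hρ0]
      gcongr
    have h4 : 3 * C1 * K / ρ ≤ (⌈3 * C1 * K / ρ⌉₊ : ℕ) := Nat.le_ceil _
    have h5 := abs_le.1 (h3.trans h4)
    rw [Finset.mem_Icc]
    constructor
    · rw [Int.le_floor]
      rw [hR]; push_cast
      linarith [h5.1]
    · have h6 : (⌊co i (x - x0 - gc c) / ρ⌋ : ℝ) ≤ co i (x - x0 - gc c) / ρ := Int.floor_le _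
      have h7 : (⌊co i (x - x0 - gc c) / ρ⌋ : ℝ) ≤ ((R : ℤ) : ℝ) := by
        rw [hR]; push_cast
        linarith [h5.2]
      exact_mod_cast h7
  -- double counting
  have hcount : ∃ m ∈ T, α * (M : ℝ) ^ n ≤ ((Bx.filter fun c => ∃ x ∈ B, mm x c = m).card : ℝ) := by
    by_contra hcon
    push Not at hcon
    have h1 : ∑ m ∈ T, ((Bx.filter fun c => ∃ x ∈ B, mm x c = m).card : ℝ) <
        ∑ m ∈ T, α * (M : ℝ) ^ n := by
      refine Finset.sum_lt_sum_of_nonempty ?_ hcon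
      rw [← Finset.card_pos]
      exact_mod_cast hTpos
    have h2 : ∑ m ∈ T, ((Bx.filter fun c => ∃ x ∈ B, mm x c = m).card) =
        ∑ c ∈ Bx, ((T.filter fun m => ∃ x ∈ B, mm x c = m).card) := by
      simp only [Finset.card_filter]
      exact Finset.sum_comm
    have h3 : ∀ c ∈ Bx, (B.card : ℝ) ≤ ((T.filter fun m => ∃ x ∈ B, mm x c = m).card : ℝ) := by
      intro c hc
      have h4 : (B.image fun x => mm x c) ⊆ T.filter fun m => ∃ x ∈ B, mm x c = m := by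
        intro m hm
        obtain ⟨x, hx, rfl⟩ := Finset.mem_image.1 hm
        exact Finset.mem_filter.2 ⟨hmem x hx c hc, x, hx, rfl⟩
      have h5 := Finset.card_le_card h4
      rw [Finset.card_image_of_injOn (hinj c)] at h5
      exact_mod_cast h5
    have h4 : (Bx.card : ℝ) * B.card ≤ ∑ c ∈ Bx, ((T.filter fun m => ∃ x ∈ B, mm x c = m).card : ℝ) := by
      rw [← nsmul_eq_mul, ← Finset.sum_const]
      exact Finset.sum_le_sum h3
    have h5 : ∑ m ∈ T, ((Bx.filter fun c => ∃ x ∈ B, mm x c = m).card : ℝ) =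
        ∑ c ∈ Bx, ((T.filter fun m => ∃ x ∈ B, mm x c = m).card : ℝ) := by exact_mod_cast h2
    rw [h5, Finset.sum_const, nsmul_eq_mul] at h1
    rw [hBxcard] at h4
    have hMn : (0 : ℝ) < (M : ℝ) ^ n := by positivity
    have h6 : (T.card : ℝ) * (α * (M : ℝ) ^ n) ≤ (M : ℝ) ^ n * B.card := by
      have h7 : (T.card : ℝ) * α ≤ B.card := by
        calc (T.card : ℝ) * α ≤ (C3 ^ e * K ^ e) * α := mul_le_mul_of_nonneg_right hTb hα0.le
          _ = ε * K ^ e := by rw [hα]; field_simp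
          _ ≤ B.card := hBc
      nlinarith
    linarith
  obtain ⟨m, hm, hmc⟩ := hcount
  obtain ⟨v, s, hs, hvs⟩ := hN0 M (le_max_left _ _) 0
    (Bx.filter fun c => ∃ x ∈ B, mm x c = m) (by
      intro c hc i
      have := Fintype.mem_piFinset.1 (Finset.mem_filter.1 hc).1 i
      rw [Finset.mem_Ico] at this
      simpa using this) hmc
  have hx : ∀ f : F, ∃ x ∈ B, mm x (v + s • (f : Fin n → ℤ)) = m := fun f =>
    (Finset.mem_filter.1 (hvs f)).2
  choose τ0 hτ0 hτ1 using hx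
  refine ⟨B, fun f => if hf : f ∈ F then τ0 ⟨f, hf⟩ else 0,
    x0 + gc v + ∑ i, (ρ * (m i : ℝ)) • bb i, s, hPB, hs, ?_, ?_⟩
  · intro f hf
    simp only [hf, dif_pos]
    exact hτ0 _
  · intro f hf
    simp only [hf, dif_pos]
    have h1 := hclose _ (hτ0 ⟨f, hf⟩) (v + s • f)
    rw [hτ1 ⟨f, hf⟩, hgc_add] at h1
    refine le_of_eq_of_le ?_ h1
    congr 1
    simp only [hgc]
    abel

end Pool.Agent.MT
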