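import Pool.Agent.H39.MT.CDefs
import Pool.Agent.H39.MT.Pattern
import Pool.Agent.H62.Alg.UnivD

/-!
# Module OneStepM: 5.1 of multi_proof.md
-/

namespace Pool.Agent.MT

open Module Submodule

variable {d : ℕ}

/-- An element with vanishing coset sums evaluates into `W`. -/
theorem coset_sum_mem {n : ℕ} (W : Submodule ℚ (Sp d)) (K : Submodule ℚ (Fin n → ℚ))
    (x : (Fin n → ℤ) →₀ ℚ) (τ : (Fin n → ℤ) → Sp d)
    (h : ∀ f ∈ x.support, ∀ f' ∈ x.support, (fun j => ((f - f') j : ℚ)) ∈ K → τ f - τ f' ∈ W)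
    (hx : ∀ (z : Fin n → ℤ) [∀ f : Fin n → ℤ, Decidable ((fun j => ((f - z) j : ℚ)) ∈ K)],
      x.sum (fun f a => if (fun j => ((f - z) j : ℚ)) ∈ K then a else 0) = 0) :
    x.sum (fun f a => a • τ f) ∈ W := by
  classical
  set s := x.support with hs
  have hK0 : ∀ f : Fin n → ℤ, (fun j => ((f - f) j : ℚ)) ∈ K := by
    intro f
    have : (fun j => ((f - f) j : ℚ)) = 0 := by
      funext j; simp
    rw [this]; exact K.zero_mem
  have hKs : ∀ f g : Fin n → ℤ, (fun j => ((f - g) j : ℚ)) ∈ K → (fun j => ((g - f) j : ℚ)) ∈ K := by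
    intro f g hfg
    have : (fun j => ((g - f) j : ℚ)) = -(fun j => ((f - g) j : ℚ)) := by
      funext j; simp
    rw [this]; exact K.neg_mem hfg
  have hKt : ∀ f g k : Fin n → ℤ, (fun j => ((f - g) j : ℚ)) ∈ K →
      (fun j => ((g - k) j : ℚ)) ∈ K → (fun j => ((f - k) j : ℚ)) ∈ K := by
    intro f g k h1 h2
    have : (fun j => ((f - k) j : ℚ)) = (fun j => ((f - g) j : ℚ)) + (fun j => ((g - k) j : ℚ)) := by
      funext j; simp
    rw [this]; exact K.add_mem h1 h2
  set c : (Fin n → ℤ) → Finset (Fin n → ℤ) := fun f =>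
    s.filter fun f' => (fun j => ((f' - f) j : ℚ)) ∈ K with hc
  have hfib : ∀ f0 ∈ s, (s.filter fun f => c f = c f0) =
      s.filter fun f => (fun j => ((f - f0) j : ℚ)) ∈ K := by
    intro f0 hf0
    ext f
    simp only [Finset.mem_filter, and_congr_right_iff]
    intro hf
    constructor
    · intro h1
      have h2 : f ∈ c f := Finset.mem_filter.2 ⟨hf, hK0 f⟩
      rw [h1] at h2
      exact (Finset.mem_filter.1 h2).2
    · intro h1
      ext g
      simp only [hc, Finset.mem_filter, and_congr_right_iff]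
      intro _
      exact ⟨fun h2 => hKt _ _ _ h2 h1, fun h2 => hKt _ _ _ h2 (hKs _ _ h1)⟩
  have h1 : x.sum (fun f a => a • τ f) = ∑ q ∈ s.image c, ∑ f ∈ s with c f = q, x f • τ f := by
    rw [Finsupp.sum]
    exact (Finset.sum_fiberwise_of_maps_to (fun f hf => Finset.mem_image_of_mem c hf) _).symm
  rw [h1]
  refine Submodule.sum_mem _ fun q hq => ?_
  obtain ⟨f0, hf0, rfl⟩ := Finset.mem_image.1 hq
  rw [hfib f0 hf0]
  have h2 : ∑ f ∈ s with (fun j => ((f - f0) j : ℚ)) ∈ K, x f • τ f =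
      ∑ f ∈ s with (fun j => ((f - f0) j : ℚ)) ∈ K, x f • (τ f - τ f0) +
        (∑ f ∈ s with (fun j => ((f - f0) j : ℚ)) ∈ K, x f) • τ f0 := by
    rw [Finset.sum_smul, ← Finset.sum_add_distrib]
    refine Finset.sum_congr rfl fun f _ => ?_
    rw [smul_sub]; abel
  rw [h2]
  have h3 : ∑ f ∈ s with (fun j => ((f - f0) j : ℚ)) ∈ K, x f = 0 := by
    have := hx f0
    rw [Finsupp.sum] at this
    rw [Finset.sum_filter]
    exact this
  rw [h3, zero_smul, add_zero]
  refine Submodule.sum_mem _ fun f hf => ?_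
  obtain ⟨hf1, hf2⟩ := Finset.mem_filter.1 hf
  exact W.smul_mem _ (h f hf1 f0 hf0 hf2)

/-- 5.1. -/
theorem one_step {S : Finset (Sp d)} {FD : Set (Submodule ℝ (Sp d) × (Sp d → ℝ))}
    {VV : Set (Submodule ℝ (Sp d))} {EE : Submodule ℝ (Sp d)}
    {Y : Submodule ℝ (Sp d) → Submodule ℚ (Sp d)} (hS : Struc S FD VV EE Y) :
    OneStep VV EE Y := by
  classical
  intro n γ hγ η hη
  obtain ⟨ε, hε, g0, hg0, hwin⟩ := hS.win
  have : Finite VV := hS.fin.to_subtype
  -- the rational relation spaces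
  let gq : (Fin n → ℚ) →ₗ[ℚ] Sp d := Fintype.linearCombination ℚ γ
  have hgq : ∀ c : Fin n → ℚ, gq c = ∑ i, c i • γ i := fun c => by
    simp [gq, Fintype.linearCombination_apply]
  have hgqZ : ∀ f : Fin n → ℤ, gq (fun j => (f j : ℚ)) = ∑ i, (f i : ℝ) • γ i := fun f => by
    rw [hgq]
    refine Finset.sum_congr rfl fun i _ => ?_
    rw [← Rat.cast_smul_eq_qsmul ℝ]
    simp
  let K : VV → Submodule ℚ (Fin n → ℚ) := fun V => (rq (V : Submodule ℝ (Sp d))).comap gq
  obtain ⟨Λ, hΛ1, hΛ0, hΛm⟩ := H62Alg.lemmaU n K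
  set F : Finset (Fin n → ℤ) :=
    Finset.univ.biUnion fun k : Fin n => (Λ (Pi.single k 1)).support with hF
  have hsupp : ∀ c : Fin n → ℚ, (Λ c).support ⊆ F := by
    intro c f hf
    by_contra hfF
    have h1 : c = ∑ k, c k • (Pi.single k (1 : ℚ) : Fin n → ℚ) := by
      funext j
      simp [Finset.sum_apply, Pi.single_apply]
    rw [Finsupp.mem_support_iff] at hf
    apply hf
    rw [h1, map_sum, Finsupp.finsetSum_apply]
    refine Finset.sum_eq_zero fun k _ => ?_
    rw [map_smul, Finsupp.smul_apply]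
    have h2 : f ∉ (Λ (Pi.single k 1)).support := fun h3 =>
      hfF (Finset.mem_biUnion.2 ⟨k, Finset.mem_univ _, h3⟩)
    rw [Finsupp.notMem_support_iff.1 h2, smul_zero]
  set CΛ : ℝ := ∑ k : Fin n, ∑ f ∈ (Λ (Pi.single k 1)).support, |((Λ (Pi.single k 1) f : ℚ) : ℝ)| with hCΛ
  have hCΛ0 : 0 ≤ CΛ := Finset.sum_nonneg fun k _ => Finset.sum_nonneg fun f _ => abs_nonneg _
  set δ : ℝ := min (g0 / 4) (η / (CΛ + 1)) with hδ
  have hδ0 : 0 < δ := lt_min (by positivity) (by positivity)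
  have hδ1 : δ ≤ g0 / 4 := min_le_left _ _
  have hδ2 : CΛ * δ ≤ η := by
    have h1 : δ ≤ η / (CΛ + 1) := min_le_right _ _
    calc CΛ * δ ≤ (CΛ + 1) * (η / (CΛ + 1)) := by
          apply mul_le_mul (by linarith) h1 hδ0.le (by linarith)
      _ = η := by field_simp
  -- the pattern
  obtain ⟨B, τ, y, j, hP, hj, hτB, hτ⟩ := pattern EE
    (fun B => ∀ V ∈ VV, ∀ x ∈ B, ∀ x' ∈ B, ∀ u : Sp d, ‖x' - x - u‖ < g0 →
      (u ∈ V → x' - x ∈ V) ∧ (u ∈ rs (Y V) → x' - x ∈ Y V)) g0 ε hg0 hε (by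
      intro K0
      obtain ⟨K, hK, z, B, h1, h2, h3, h4⟩ := hwin K0
      refine ⟨K, hK, z, B, h4, h1, h2, ?_, h3⟩
      intro x hx x' hx' hlt
      have := (h4 ⊥ hS.bot_mem x hx x' hx' 0 (by simpa using hlt)).1 (Submodule.mem_bot ℝ |>.2 rfl)
      rw [Submodule.mem_bot, sub_eq_zero] at this
      exact this) γ hγ δ hδ0 F
  have hj0 : (0 : ℝ) < j := by exact_mod_cast hj
  let ev : ((Fin n → ℤ) →₀ ℚ) →ₗ[ℚ] Sp d := Finsupp.linearCombination ℚ τ
  have hev : ∀ x, ev x = x.sum fun f a => a • τ f := fun x => rfl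
  set γ' : Fin n → Sp d := fun k => (j : ℝ)⁻¹ • ev (Λ (Pi.single k 1)) with hγ'
  have hγ'c : ∀ c : Fin n → ℚ, ∑ i, c i • γ' i = (j : ℝ)⁻¹ • ev (Λ c) := by
    intro c
    have h1 : c = ∑ k, c k • (Pi.single k (1 : ℚ) : Fin n → ℚ) := by
      funext j
      simp [Finset.sum_apply, Pi.single_apply]
    conv_rhs => rw [h1, map_sum, map_sum, Finset.smul_sum]
    refine Finset.sum_congr rfl fun k _ => ?_
    rw [map_smul, map_smul, hγ', smul_comm]
  -- differences in the pattern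
  have hdiff : ∀ f ∈ F, ∀ f' ∈ F, ‖τ f - τ f' - (j : ℝ) • gq (fun i => ((f - f') i : ℚ))‖ < g0 := by
    intro f hf f' hf'
    have h1 := hτ f hf
    have h2 := hτ f' hf'
    have h3 : gq (fun i => ((f - f') i : ℚ)) = ∑ i, (f i : ℝ) • γ i - ∑ i, (f' i : ℝ) • γ i := by
      rw [hgqZ, ← Finset.sum_sub_distrib]
      refine Finset.sum_congr rfl fun i _ => ?_
      rw [← sub_smul]; simp
    rw [h3]
    have h4 : τ f - τ f' - (j : ℝ) • (∑ i, (f i : ℝ) • γ i - ∑ i, (f' i : ℝ) • γ i) =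
        (τ f - y - (j : ℝ) • ∑ i, (f i : ℝ) • γ i) -
        (τ f' - y - (j : ℝ) • ∑ i, (f' i : ℝ) • γ i) := by
      rw [smul_sub]; abel
    rw [h4]
    refine (norm_sub_le _ _).trans_lt ?_
    linarith
  refine ⟨γ', ?_, ?_⟩
  · intro k
    set x := Λ (Pi.single k 1) with hx
    have h1 : ev x - (j : ℝ) • γ k = x.sum fun f a => a • (τ f - y - (j : ℝ) • gq (fun i => (f i : ℚ))) := by
      have h2 : gq (x.sum fun f a => a • (fun i => (f i : ℚ))) = γ k := by
        rw [hx, hΛm, hgq]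
        rw [Finset.sum_eq_single k]
        · simp
        · intro b _ hb
          simp [Pi.single_apply, hb]
        · intro h; exact absurd (Finset.mem_univ k) h
      have h3 : (j : ℝ) • γ k = x.sum fun f a => a • ((j : ℝ) • gq (fun i => (f i : ℚ))) := by
        rw [← h2, Finsupp.sum, map_sum, Finset.smul_sum, Finsupp.sum]
        refine Finset.sum_congr rfl fun f _ => ?_
        rw [map_smul, smul_comm]
      have h4 : x.sum (fun f a => a • y) = 0 := by
        rw [Finsupp.sum, ← Finset.sum_smul]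
        have := hΛ0 (Pi.single k 1)
        rw [← hx, Finsupp.sum] at this
        rw [this, zero_smul]
      rw [hev, h3]
      have h5 : (x.sum fun f a => a • (τ f - y - (j : ℝ) • gq (fun i => (f i : ℚ)))) =
          (x.sum fun f a => a • τ f) - (x.sum fun f a => a • y) -
            x.sum fun f a => a • ((j : ℝ) • gq (fun i => (f i : ℚ))) := by
        simp only [Finsupp.sum, smul_sub, Finset.sum_sub_distrib]
      rw [h5, h4, sub_zero]
    have h2 : γ' k - γ k = (j : ℝ)⁻¹ • (ev x - (j : ℝ) • γ k) := by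
      rw [smul_sub, smul_smul, inv_mul_cancel₀ hj0.ne', one_smul]
    rw [h2, h1, norm_smul, norm_inv, Real.norm_eq_abs, abs_of_pos hj0]
    have h3 : ‖x.sum fun f a => a • (τ f - y - (j : ℝ) • gq (fun i => (f i : ℚ)))‖ ≤ CΛ * δ := by
      rw [Finsupp.sum]
      refine (norm_sum_le _ _).trans ?_
      have h4 : ∑ f ∈ x.support, ‖x f • (τ f - y - (j : ℝ) • gq (fun i => (f i : ℚ)))‖ ≤
          ∑ f ∈ x.support, |((x f : ℚ) : ℝ)| * δ := by
        refine Finset.sum_le_sum fun f hf => ?_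
        rw [← Rat.cast_smul_eq_qsmul ℝ, norm_smul, Real.norm_eq_abs]
        refine mul_le_mul_of_nonneg_left ?_ (abs_nonneg _)
        rw [hgqZ]
        exact hτ f (hsupp _ hf)
      refine h4.trans ?_
      rw [← Finset.sum_mul]
      refine mul_le_mul_of_nonneg_right ?_ hδ0.le
      exact Finset.single_le_sum
        (f := fun k : Fin n => ∑ f ∈ (Λ (Pi.single k 1)).support, |((Λ (Pi.single k 1) f : ℚ) : ℝ)|)
        (fun k _ => Finset.sum_nonneg fun f _ => abs_nonneg _) (Finset.mem_univ k)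
    have h4 : (1 : ℝ) ≤ j := by exact_mod_cast hj
    calc (j : ℝ)⁻¹ * ‖x.sum fun f a => a • (τ f - y - (j : ℝ) • gq (fun i => (f i : ℚ)))‖
        ≤ 1 * (CΛ * δ) := by
          apply mul_le_mul (inv_le_one_of_one_le₀ h4) h3 (norm_nonneg _) zero_le_one
      _ ≤ η := by linarith
  · intro c V hV
    rw [hγ'c, ← hgq]
    constructor
    · intro hc
      have h1 : ev (Λ c) ∈ rq V := by
        rw [hev]
        refine coset_sum_mem (rq V) (K ⟨V, hV⟩) (Λ c) τ ?_ ?_
        · intro f hf f' hf' hff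
          have h2 := hdiff f (hsupp c hf) f' (hsupp c hf')
          refine ((hP V hV _ (hτB f' (hsupp c hf')) _ (hτB f (hsupp c hf)) _ h2).1 ?_)
          exact V.smul_mem _ hff
        · intro z inst
          exact hΛ1 ⟨V, hV⟩ c hc z
      exact V.smul_mem _ h1
    · intro hc
      have h1 : ev (Λ c) ∈ Y V := by
        rw [hev]
        refine coset_sum_mem (Y V) (K ⟨rs (Y V), hS.pl_mem V hV⟩) (Λ c) τ ?_ ?_
        · intro f hf f' hf' hff
          have h2 := hdiff f (hsupp c hf) f' (hsupp c hf')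
          refine ((hP V hV _ (hτB f' (hsupp c hf')) _ (hτB f (hsupp c hf)) _ h2).2 ?_)
          exact (rs (Y V)).smul_mem _ hff
        · intro z inst
          exact hΛ1 ⟨rs (Y V), hS.pl_mem V hV⟩ c hc z
      have h2 : (j : ℝ)⁻¹ • ev (Λ c) = ((j : ℚ)⁻¹) • ev (Λ c) := by
        rw [← Rat.cast_smul_eq_qsmul ℝ]
        simp
      rw [h2]
      exact (Y V).smul_mem _ h1

end Pool.Agent.MT
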